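import Pool.Agent.H6.FC.Targets

/-!
# MP_7500ea_al, board fc_modules: small lemmas on indices
-/

open scoped Classical ComplexConjugate

namespace FI

open AMc AMt

/-- the index of `T` in `T R`, `R` normal -/
theorem relIdx_sup {G : Type} [Group G] [Finite G] (T R : Subgroup G) [R.Normal] :
    T.relIndex (T ⊔ R) = T.relIndex R := by
  have h1 := Subgroup.relIndex_mul_relIndex (T ⊓ R) T (T ⊔ R) inf_le_left le_sup_left
  have h2 := Subgroup.relIndex_mul_relIndex (T ⊓ R) R (T ⊔ R) inf_le_right le_sup_right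
  rw [Subgroup.inf_relIndex_right] at h2
  rw [Subgroup.inf_relIndex_left] at h1
  have h3 := Subgroup.relIndex_sup_right (H := T) (K := R)
  rw [h3] at h2
  rw [← h2, mul_comm] at h1
  have h4 : R.relIndex T ≠ 0 := by
    rw [Subgroup.relIndex]; exact Subgroup.index_ne_zero_of_finite
  exact Nat.eq_of_mul_eq_mul_right (Nat.pos_of_ne_zero h4) h1

/-- `|Y : T| = |Y : T R| |R : R ∩ T|`, `R` normal -/
theorem idx_sup {G : Type} [Group G] [Finite G] (T R : Subgroup G) [R.Normal] :
    T.index = (T ⊔ R).index * T.relIndex R := by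
  rw [← relIdx_sup T R, mul_comm]
  exact (Subgroup.relIndex_mul_index le_sup_left).symm

/-- the index of the image of `T` under a surjection with kernel `R` -/
theorem idx_map_mk {G : Type} [Group G] (T R : Subgroup G) [R.Normal] :
    (T.map (QuotientGroup.mk' R)).index = (T ⊔ R).index := by
  rw [Subgroup.index_map, QuotientGroup.ker_mk', QuotientGroup.range_mk', Subgroup.index_top,
    mul_one]

/-- a character of a central subgroup is invariant -/
theorem cen_inv {Γ : Type} [Group Γ] [Fintype Γ] {Z : Subgroup Γ}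
    (hZ : ∀ z ∈ Z, ∀ g, z * g = g * z) {ν : Γ → ℂ} (hν : ν ∈ IrrS Z) (u : Γ) : cj u ν = ν := by
  funext g
  simp only [cj]
  by_cases hg : g ∈ Z
  · rw [← hZ g hg u, mul_inv_cancel_right]
  · obtain ⟨ψ, hψ, rfl⟩ := hν
    rw [ext0, ext0, dif_neg hg, dif_neg]
    intro h
    apply hg
    have h2 := hZ _ h u
    have h3 : g = u * g * u⁻¹ := by
      have : u * g * u⁻¹ * u = u * (u * g * u⁻¹) := h2
      rw [inv_mul_cancel_right] at this
      exact mul_left_cancel this
    rw [h3]; exact h

/-- a central subgroup is normal -/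
theorem cen_nor {Γ : Type} [Group Γ] {Z : Subgroup Γ} (hZ : ∀ z ∈ Z, ∀ g, z * g = g * z) :
    Z.Normal := ⟨fun z hz g => by rw [← hZ z hz g, mul_inv_cancel_right]; exact hz⟩

theorem nin_of_normal {Γ : Type} [Group Γ] {Z : Subgroup Γ} (h : Z.Normal) : NIn Z ⊤ :=
  ⟨le_top, fun u _ g hg => h.conj_mem g hg u⟩

end FI
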