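import Pool.Agent.H6.FC.Asm2

/-!
# MP_7500ea_al, board cfp_modules: the reduction to the factor group by the solvable radical
-/

open scoped Classical ComplexConjugate

namespace FI

open AMc AMt

/-- the condition on central extensions, in terms of average degrees -/
theorem cen_acd (BRG : T_BRG) (KKP : T_KKP) (e : ℝ) (Y : Type) [Group Y] [Finite Y]
    (H : ∀ (T : Subgroup Y) (X : Type) [Group X] [Finite X] (q : X →* T),
      Function.Surjective q → q.ker ≤ Subgroup.center X → ∀ ν ∈ Irr q.ker,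
      (Nat.card Y : ℝ) ^ (1 / e) ≤ T.index * acd q.ker ν) : CEN e Y := by
  intro Γ _ _ Z h hC ν hν
  have hker : h.rangeRestrict.ker = Z := by
    ext x
    rw [MonoidHom.mem_ker, ← hC.ker]
    exact Subtype.ext_iff
  subst hker
  obtain ⟨ψ, hψ, rfl⟩ := hν
  have h1 := H h.range Γ h.rangeRestrict h.rangeRestrict_surjective (by
    intro z hz
    rw [Subgroup.mem_center_iff]
    intro g
    exact (hC.cen z hz g).symm) ψ hψ
  obtain ⟨h2, h3⟩ := BRG Γ h.rangeRestrict.ker ψ hψ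
  obtain ⟨-, k1, -⟩ := KKP Γ _ ⊤ le_top _ h2
  have k2 : (0 : ℝ) ≤ kk ⊤ (ext0 h.rangeRestrict.ker ψ) := Nat.cast_nonneg _
  rw [← h3]
  calc _ ≤ (h.range.index : ℝ) * acd h.rangeRestrict.ker ψ * kk ⊤ (ext0 h.rangeRestrict.ker ψ) :=
        mul_le_mul_of_nonneg_right h1 k2
    _ = _ := by ring

/-- the reduction to `G / Sol(G)` -/
theorem rr_thm (SOL : T_SOL) (SQ : T_SQ) (BRG : T_BRG) (KKP : T_KKP) (KRN : T_KRN) (TRD : T_TRD)
    (CIS : T_CIS) (FIN : T_FIN) (e : ℝ) (he : 91 / 25 ≤ e) (Y : Type) [Group Y] [Finite Y]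
    (hs : sol Y = ⊥)
    (H : ∀ (T : Subgroup Y) (X : Type) [Group X] [Finite X] (q : X →* T),
      Function.Surjective q → q.ker ≤ Subgroup.center X → ∀ ν ∈ Irr q.ker,
      (Nat.card Y : ℝ) ^ (1 / e) ≤ T.index * acd q.ker ν)
    (G : Type) [Group G] [Finite G] (f : G →* Y) (hf : Function.Surjective f)
    (hk : Group.IsSolvable f.ker) :
    ∃ θ ∈ Irr (fit G), θ 1 = 1 ∧ ((fit G).index : ℝ) ≤ acd (fit G) θ ^ e := by
  have hY : CA e Y := KRN e Y (TRD e Y hs (cen_acd BRG KKP e Y H))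
  apply FIN e he G
  have h1 : sol G = f.ker := by
    have h2 := (SQ G Y f hf hk).2
    rw [hs] at h2
    rw [← h2]
    rfl
  have h3 : Nonempty (Y ≃* G ⧸ sol G) := by
    refine ⟨MulEquiv.symm ?_⟩
    exact (QuotientGroup.quotientMulEquivOfEq h1).trans
      (QuotientGroup.quotientKerEquivOfSurjective f hf)
  exact CIS e Y _ h3 hY

end FI
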