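import Pool.Agent.H6.FC.Lem
import Pool.Agent.H63.FI.BRG
import Pool.Agent.H10.FC.SG5

/-!
# MP_7500ea_al, board cfp_modules, row EDI: degrees of the invariant characters
-/

open scoped Classical ComplexConjugate

namespace Pool.Agent.H6.FC

open _root_.FI AMc AMt

theorem pf_EDI (MUL : T_MUL) (PSI : T_PSI) (Q2A : T_Q2A) (CRD : T_CRD) (_ : T_LCH)
    (ALQ : T_ALQ)
    (ALS : T_ALS) (_ : T_SOL) : T_EDI := by
  intro q hq h7 χ hχ hinv
  obtain ⟨ψ, -⟩ := PSI q hq
  obtain ⟨hfin, -, hidx, hnor⟩ := CRD q hq h7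
  have : Finite (PL q) := Finite.of_equiv (PS q) ψ.symm.toEquiv
  have : Fintype (PL q) := Fintype.ofFinite _
  have hle : PS q ≤ (MonoidHom.id (PG q)).range := by
    rw [MonoidHom.range_eq_top.2 Function.surjective_id]
    exact le_top
  obtain ⟨U, B, h2⟩ := Q2A q (PG q) (MonoidHom.id (PG q)) hq h7 Function.injective_id hle
  rw [Subgroup.comap_id] at h2
  have hAl : Al (PG q) (PS q) := ALQ q (PG q) (MonoidHom.id _) hq h7 Function.injective_id hle
  obtain ⟨-, -, -, -, hperf⟩ := ALS (PG q) (PS q) hAl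
  let π' : PL q →* PG q := (PS q).subtype.comp ψ.toMonoidHom
  have hπ' : ∀ m, π' m = ((ψ m : PS q) : PG q) := fun _ => rfl
  have hrange : π'.range = PS q := by
    ext x
    constructor
    · rintro ⟨m, rfl⟩
      exact (ψ m).2
    · intro hx
      obtain ⟨y, hy⟩ := ψ.surjective ⟨x, hx⟩
      refine ⟨y, ?_⟩
      rw [hπ', hy]
  have hinj : Function.Injective π' := by
    intro a b hab
    rw [hπ', hπ'] at hab
    exact ψ.injective (Subtype.ext hab)
  have hker : π'.ker = ⊥ := (MonoidHom.ker_eq_bot_iff π').2 hinj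
  have hker' : π'.ker ≤ Subgroup.center (PL q) := by rw [hker]; exact bot_le
  obtain ⟨ν, hν, hov⟩ := FI.Lib.lE1 (PL q) π'.ker ⊤ le_top χ
    ((Pool.Agent.H63.FI.irr_top χ).2 hχ)
  obtain ⟨F, l, m1, m2, hF, hdeg, -, -, -, -, -, -, h00, hσ⟩ :=
    MUL q (PG q) (PS q) U B h2 (PL q) π' hrange hker' ν hν
  have hχF : χ ∈ F := (hF χ).2 ⟨(Pool.Agent.H63.FI.irr_top χ).2 hχ, hov⟩
  -- an element outside PS q
  obtain ⟨a, ha⟩ : ∃ a : PG q, a ∉ PS q := by
    by_contra hcon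
    push Not at hcon
    have : PS q = ⊤ := by
      rw [eq_top_iff]
      exact fun x _ => hcon x
    rw [this, Subgroup.index_top] at hidx
    exact absurd hidx (by norm_num)
  -- the automorphism
  have hmem : ∀ s : PG q, s ∈ PS q → a * s * a⁻¹ ∈ PS q := fun s hs => hnor.conj_mem s hs a
  let cα : MulAut (PS q) := MulAut.conjNormal a
  have hcα : ∀ s : PS q, ((cα s : PS q) : PG q) = a * s * a⁻¹ := fun s =>
    MulAut.conjNormal_apply a s
  let σ : PL q ≃* PL q := (ψ.trans cα).trans ψ.symm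
  have hσπ : ∀ m, π' (σ m) = a * π' m * a⁻¹ := by
    intro m
    rw [hπ', hπ', ← hcα]
    show ((ψ (ψ.symm (cα (ψ m))) : PS q) : PG q) = _
    rw [MulEquiv.apply_symm_apply]
  have hz : ∀ z ∈ π'.ker, σ z = z := by
    intro z hz
    rw [hker, Subgroup.mem_bot] at hz
    rw [hz, map_one]
  have hm : m1 χ = m2 χ := hσ σ a ha hz hσπ χ hχF (by
    funext s
    exact hinv σ s)
  by_cases h0 : m1 χ = 0
  · left
    have hone : χ 1 = 1 := h00 χ hχF h0 (hm ▸ h0)
    obtain ⟨μ, hμ⟩ := Pool.Agent.H10.FC.lin_of_deg_one hχ hone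
    -- PL q is perfect
    have hμ1 : ∀ m, μ m = 1 := by
      have hc : ∀ s ∈ (⁅PS q, PS q⁆ : Subgroup (PG q)), ∀ hs : s ∈ PS q,
          μ (ψ.symm ⟨s, hs⟩) = 1 := by
        intro s hs
        let K : Subgroup (PG q) := ((μ.comp ψ.symm.toMonoidHom).ker).map (PS q).subtype
        have hK : ⁅PS q, PS q⁆ ≤ K := by
          rw [Subgroup.commutator_le]
          intro x hx y hy
          refine ⟨⟨x, hx⟩ * ⟨y, hy⟩ * (⟨x, hx⟩)⁻¹ * (⟨y, hy⟩)⁻¹, ?_, rfl⟩
          show (μ.comp ψ.symm.toMonoidHom) _ = 1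
          rw [map_mul, map_mul, map_mul, map_inv, map_inv]
          exact mul_inv_eq_one.2 (mul_inv_eq_of_eq_mul (mul_comm _ _))
        obtain ⟨t, ht, hts⟩ := hK hs
        intro hs'
        have : t = ⟨s, hs'⟩ := Subtype.ext hts
        rw [← this]
        exact ht
      intro m
      have h3 := hc ((ψ m : PS q) : PG q) (by rw [hperf]; exact (ψ m).2) (ψ m).2
      have h4 : (⟨((ψ m : PS q) : PG q), (ψ m).2⟩ : PS q) = ψ m := Subtype.ext rfl
      rw [h4, MulEquiv.symm_apply_apply] at h3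
      exact h3
    funext m
    rw [hμ, hμ1]
    rfl
  · right
    have h3 : 1 ≤ m1 χ := Nat.one_le_iff_ne_zero.2 h0
    have h4 : (1 : ℝ) ≤ (m1 χ : ℝ) := by exact_mod_cast h3
    have h5 := hdeg χ hχF
    rw [← hm] at h5
    have h6 : (7 : ℝ) ≤ q := by exact_mod_cast h7
    have h7' : (0 : ℝ) ≤ (l χ : ℝ) := Nat.cast_nonneg _
    nlinarith

end Pool.Agent.H6.FC
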