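import Pool.Agent.H6.FC.Lem

/-!
# MP_7500ea_al, board cfp_modules: row S1E
-/

open scoped Classical ComplexConjugate

namespace Pool.Agent.H6.FC

open FI AMc AMt

theorem pf_S1E (PSK : T_PSK) (PEC : T_PEC) (CVT : T_CVT) (CPR : T_CPR) (ABL : T_ABL)
    (KKP : T_KKP) : T_S1E := by
  intro e he Y A _ _ _ _ hs L hL S γ hd hCk Γ _ _ Z h hC hLr hrg ν hν
  have he0 : 0 < e := by linarith
  obtain ⟨s1, s2, s3, s4, s5, s6, s7⟩ := PSK Y A S L γ hs hd.al hd.sur hd.inf hd.map
  let δ : Γ →* S := (γ.comp h).codRestrict S (fun x => by rw [← hrg]; exact ⟨x, rfl⟩)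
  have hδ : ∀ x, ((δ x : S) : A) = γ (h x) := fun x => rfl
  have hsur : Function.Surjective δ := by
    rintro ⟨y, hy⟩
    rw [← hrg] at hy
    obtain ⟨x, hx⟩ := hy
    exact ⟨x, Subtype.ext hx⟩
  have hAG : AG (⊤ : Subgroup S) Z (L.comap h) (γ.ker.comap h) δ := by
    constructor
    · exact hC.cen
    · exact hL.comap h
    · intro g
      constructor
      · intro hg
        exact Subtype.ext hg
      · intro hg
        exact congrArg (fun z : S => (z : A)) hg
    · rw [← Subgroup.comap_inf, hd.inf]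
      ext x
      rw [Subgroup.mem_comap, Subgroup.mem_bot]
      exact hC.ker x
    · rw [eq_top_iff]
      rintro ⟨y, hy⟩ _
      have hy' := hy
      rw [← hd.map] at hy'
      obtain ⟨l, hl, hly⟩ := hy'
      obtain ⟨x, rfl⟩ := hLr hl
      exact ⟨x, hl, Subtype.ext hly⟩
    · exact hsur
  obtain ⟨a1, a2, a3, a4, a5, a6⟩ := PEC Γ S (⊤ : Subgroup S) Z _ _ _ hd.al' hAG
  obtain ⟨b1, -⟩ := CVT e S (⊤ : Subgroup S) hd.al' hd.ch' Γ Z _ _ _ hAG ν hν
  have hMC : L.comap h ⊔ γ.ker.comap h = ⊤ := by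
    rw [← Subgroup.index_eq_one, a3, Subgroup.index_top]
  obtain ⟨k1, k2⟩ := CPR Γ Z _ _ hMC hAG.inf a1 ν hν
  have hcard : Nat.card (⊤ : Subgroup S) = Nat.card S := Subgroup.card_top
  rw [hcard] at b1
  -- the characters of `C`
  have hZC : Z ≤ γ.ker.comap h := by rw [← hAG.inf]; exact inf_le_right
  have hZM : Z ≤ L.comap h := by rw [← hAG.inf]; exact inf_le_left
  let h' : (γ.ker.comap h : Subgroup Γ) →* γ.ker :=
    (h.comp (γ.ker.comap h).subtype).codRestrict γ.ker (fun x => x.2)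
  have hC1 := hCk Γ Z (γ.ker.comap h) ⟨hZC, fun u _ g hg => by
      rw [← hC.cen g hg u, mul_inv_cancel_right]; exact hg⟩ ν hν
    (fun u _ => cen_inv hC.cen hν u) h' (by
      intro x hx
      exact Subtype.ext ((hC.ker x).2 hx))
  have h2 : (ν 1).re = 1 := by
    rw [(ABL Γ Z (fun a ha b _ => hC.cen a ha b) ν hν).1, Complex.one_re]
  have h3 : h'.range = h.range.subgroupOf γ.ker := by
    ext ⟨y, hy⟩
    constructor
    · rintro ⟨x, hx⟩
      exact ⟨x, congrArg (fun z : γ.ker => (z : Y)) hx⟩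
    · rintro ⟨x, hx⟩
      refine ⟨⟨x, ?_⟩, Subtype.ext hx⟩
      change h x ∈ γ.ker
      have hx' : h x = y := hx
      rw [hx']; exact hy
  rw [s1, Subgroup.index_bot, h2, mul_one, h3] at hC1
  change _ ≤ (h.range.relIndex γ.ker : ℝ) * _ at hC1
  -- the index
  have h4 : h.range.index = S.index * h.range.relIndex γ.ker := by
    rw [idx_sup h.range γ.ker]
    congr 1
    have h5 : h.range.map γ = S := by rw [← hrg, MonoidHom.range_comp]
    have h6 := Subgroup.index_map h.range γ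
    rw [h5, MonoidHom.range_eq_top.2 hd.sur, Subgroup.index_top, mul_one] at h6
    exact h6.symm
  have h5 : Nat.card A = Nat.card S * S.index := (Subgroup.card_mul_index S).symm
  set r : ℝ := (S.index : ℝ) with hr
  have hr1 : 1 ≤ r := by
    rw [hr]
    exact_mod_cast Nat.pos_of_ne_zero Subgroup.index_ne_zero_of_finite
  have hr2 : r ^ (1 / e) ≤ r := by
    conv_rhs => rw [← Real.rpow_one r]
    apply Real.rpow_le_rpow_of_exponent_le hr1
    rw [div_le_one he0]; exact he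
  have hkM : (0 : ℝ) ≤ kk (L.comap h) ν := Nat.cast_nonneg _
  have hkC : (0 : ℝ) ≤ kk (γ.ker.comap h) ν := Nat.cast_nonneg _
  have hdM : 0 ≤ dd (L.comap h) ν :=
    (Nat.cast_nonneg _).trans (KKP Γ Z _ hZM ν hν).2.2
  have hdC : 0 ≤ dd (γ.ker.comap h) ν :=
    (Nat.cast_nonneg _).trans (KKP Γ Z _ hZC ν hν).2.2
  rw [k1, k2, h4, s7, h5]
  push_cast
  rw [Real.mul_rpow (by positivity) (by positivity), Real.mul_rpow (by positivity)
    (by positivity)]
  set c := (Nat.card γ.ker : ℝ) ^ (1 / e) with hc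
  have hc0 : 0 ≤ c := by positivity
  set s := (Nat.card S : ℝ) ^ (1 / e) with hs'
  have hs0 : 0 ≤ s := by positivity
  calc c * (s * r ^ (1 / e)) * (kk (L.comap h) ν * kk (γ.ker.comap h) ν)
      = r ^ (1 / e) * ((s * kk (L.comap h) ν) * (c * kk (γ.ker.comap h) ν)) := by ring
    _ ≤ r * ((s * kk (L.comap h) ν) * (c * kk (γ.ker.comap h) ν)) :=
        mul_le_mul_of_nonneg_right hr2 (mul_nonneg (mul_nonneg hs0 hkM) (mul_nonneg hc0 hkC))
    _ ≤ r * (dd (L.comap h) ν * ((h.range.relIndex γ.ker : ℝ) * dd (γ.ker.comap h) ν)) :=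
        mul_le_mul_of_nonneg_left (mul_le_mul b1 hC1 (mul_nonneg hc0 hkC) hdM) (by linarith)
    _ = _ := by ring

end Pool.Agent.H6.FC
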