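import Pool.Agent.H6.FC.Lem
import Pool.Agent.H6.FIB.AsmP

/-!
# MP_7500ea_al, board cfp_modules: row S1F
-/

open scoped Classical ComplexConjugate

namespace Pool.Agent.H6.FC

open FI AMc AMt

theorem pf_S1F (PSK : T_PSK) (PEC : T_PEC) (CVT : T_CVT) (PKC : T_PKC) (PKI : T_PKI)
    (ORB : T_ORB) (PIX : T_PIX) (KKP : T_KKP) (CLF : T_CLF) (DGL : T_DGL) (CIS : T_CIS)
    (DLB : T_DLB) (ABL : T_ABL) : T_S1F := by
  intro e he Y A _ _ _ _ hs L hL S γ hd hpr hCk hCq Γ _ _ Z h hC hLr hsur ν hν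
  have he0 : 0 < e := by linarith
  have hγ := hd.sur
  have hi := hd.inf
  have hm := hd.map
  have hAl := hd.al
  have hCh := hd.ch
  obtain ⟨s1, s2, s3, s4, s5, s6, s7⟩ := PSK Y A S L γ hs hAl hγ hi hm
  have hAG : AG S Z (L.comap h) (γ.ker.comap h) (γ.comp h) := by
    constructor
    · exact hC.cen
    · exact hL.comap h
    · intro g
      rfl
    · rw [← Subgroup.comap_inf, hi]
      ext x
      rw [Subgroup.mem_comap, Subgroup.mem_bot]
      exact hC.ker x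
    · rw [← Subgroup.map_map, Subgroup.map_comap_eq, inf_eq_right.2 hLr, hm]
    · exact hsur
  obtain ⟨a1, a2, a3, a4, a5, a6⟩ := PEC Γ A S Z _ _ _ hAl hAG
  obtain ⟨b1, b2⟩ := CVT e A S hAl hCh Γ Z _ _ _ hAG ν hν
  generalize hc : (Nat.card γ.ker : ℝ) ^ (1 / e) = c
  have hc0 : 0 ≤ c := by rw [← hc]; positivity
  have hMn : NIn (L.comap h) ⊤ := ⟨le_top, fun u _ g hg => hAG.nor.conj_mem g hg u⟩
  have hZM : Z ≤ L.comap h := by rw [← hAG.inf]; exact inf_le_left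
  have hZn : NIn Z ⊤ := nin_of_normal (cen_nor hC.cen)
  have hνinv : ∀ u : Γ, cj u ν = ν := fun u => cen_inv hC.cen hν u
  have hLs : L ⊔ h.range = h.range := sup_eq_right.2 hLr
  have hb1 : h.range ⊔ γ.ker = ⊤ := by
    rw [eq_top_iff]
    intro y _
    obtain ⟨g, hg⟩ := hsur (γ y)
    have h1 : (h g)⁻¹ * y ∈ γ.ker := by
      rw [MonoidHom.mem_ker, map_mul, map_inv, ← hg]
      exact inv_mul_cancel _
    have h2 := Subgroup.mul_mem _ ((le_sup_left : h.range ≤ h.range ⊔ γ.ker) ⟨g, rfl⟩)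
      ((le_sup_right : γ.ker ≤ h.range ⊔ γ.ker) h1)
    rwa [mul_inv_cancel_left] at h2
  have hb2 : h.range.index = h.range.relIndex γ.ker := by
    rw [idx_sup h.range γ.ker, hb1, Subgroup.index_top, one_mul]
  set M := L.comap h with hMdef
  set C := γ.ker.comap h with hCdef
  set b : ℝ := (h.range.index : ℝ) with hbdef
  have hb0 : 0 ≤ b := Nat.cast_nonneg _
  rw [s7]
  push_cast
  rw [Real.mul_rpow (by positivity) (by positivity), hc]
  have hidx : S.index ≠ 1 := hpr.one_lt.ne'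
  obtain ⟨b3, b4⟩ := b2 hidx
  set u := (Nat.card A : ℝ) ^ (1 / e) with hu
  have hp0 : (0 : ℝ) < S.index := by exact_mod_cast hpr.pos
  have hkM : ∀ x : Γ, (QuotientGroup.mk' L) (h x) = 1 ↔ x ∈ M := by
    intro x
    rw [← MonoidHom.mem_ker, QuotientGroup.ker_mk', hMdef, Subgroup.mem_comap]
  have hddU : ∀ (U : Subgroup Γ), M ≤ U → ∀ φ ∈ IrrS M, 0 ≤ dd U φ := by
    intro U hU φ hφ
    exact (Nat.cast_nonneg _).trans (KKP Γ M U hU φ hφ).2.2
  -- characters of `Γ` over invariant characters of `M`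
  have hT : ∀ φ ∈ IrrS M, (∀ g, cj g φ = φ) → c * (φ 1).re * kk ⊤ φ ≤ b * dd ⊤ φ := by
    intro φ hφ hinv
    have h1 := DLB e Y L hCq Γ h M hAG.nor (fun n hn => hn) φ hφ
    rw [hLs] at h1
    refine le_trans ?_ h1
    have h2 : c ≤ ((sol (Y ⧸ L)).index : ℝ) ^ (1 / e) := by
      rw [← hc]
      exact Real.rpow_le_rpow (by positivity) (by exact_mod_cast s6) (by positivity)
    have h3 : 0 ≤ (φ 1).re := ((DGL Γ M ⊤ hMn).1 φ hφ).le
    exact mul_le_mul_of_nonneg_right (mul_le_mul_of_nonneg_right h2 h3) (Nat.cast_nonneg _)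
  -- characters of `M C`
  have hCk' : CA e (γ.ker.map (QuotientGroup.mk' L)) := by
    refine CIS e γ.ker _ ?_ hCk
    have hinj : Function.Injective ((QuotientGroup.mk' L).comp γ.ker.subtype) := by
      rw [injective_iff_map_eq_one]
      intro x hx
      have h1 : (x : Y) ∈ L := (QuotientGroup.eq_one_iff _).1 hx
      have h2 : (x : Y) ∈ L ⊓ γ.ker := ⟨h1, x.2⟩
      rw [hi, Subgroup.mem_bot] at h2
      exact Subtype.ext h2
    have hr : ((QuotientGroup.mk' L).comp γ.ker.subtype).range =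
        γ.ker.map (QuotientGroup.mk' L) := by
      rw [MonoidHom.range_comp, Subgroup.range_subtype]
    exact ⟨(MonoidHom.ofInjective hinj).trans (MulEquiv.subgroupCongr hr)⟩
  have hU : ∀ φ ∈ IrrS M, (∀ g ∈ M ⊔ C, cj g φ = φ) →
      c * (φ 1).re * kk (M ⊔ C) φ ≤ b * dd (M ⊔ C) φ := by
    intro φ hφ hinv
    have hMC : ∀ x ∈ M ⊔ C, (QuotientGroup.mk' L) (h x) ∈ γ.ker.map (QuotientGroup.mk' L) := by
      intro x hx
      have hmn := hAG.nor
      obtain ⟨m, hm, c', hc', rfl⟩ := Subgroup.mem_sup_of_normal_left.1 hx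
      rw [map_mul, map_mul, (hkM m).2 hm, one_mul]
      exact ⟨h c', hc', rfl⟩
    set h' : (M ⊔ C : Subgroup Γ) →* γ.ker.map (QuotientGroup.mk' L) :=
      (((QuotientGroup.mk' L).comp (h.comp (M ⊔ C).subtype)).codRestrict _
        (fun x => hMC x x.2)) with hh'
    have h1 := hCk' Γ M (M ⊔ C)
      ⟨le_sup_left, fun u _ g hg => hAG.nor.conj_mem g hg u⟩ φ hφ hinv h' (by
        intro x hx
        exact Subtype.ext ((hkM x).2 hx))
    have h2 : (h'.range.index : ℝ) ≤ b := by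
      rw [hbdef, hb2]
      have h3 : (h.range.subgroupOf γ.ker).map
          (((QuotientGroup.mk' L).comp γ.ker.subtype).codRestrict
            (γ.ker.map (QuotientGroup.mk' L)) (fun x => ⟨x, x.2, rfl⟩)) ≤ h'.range := by
        rintro _ ⟨x, hx, rfl⟩
        obtain ⟨g, hg⟩ := (hx : (x : Y) ∈ h.range)
        have hgC : g ∈ C := by
          change h g ∈ γ.ker
          rw [hg]; exact x.2
        refine ⟨⟨g, (le_sup_right : C ≤ M ⊔ C) hgC⟩, Subtype.ext ?_⟩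
        exact congrArg (QuotientGroup.mk' L) hg
      have h4 := Subgroup.index_antitone h3
      have h5 : Function.Surjective (((QuotientGroup.mk' L).comp γ.ker.subtype).codRestrict
            (γ.ker.map (QuotientGroup.mk' L)) (fun x => ⟨x, x.2, rfl⟩)) := by
        rintro ⟨y, x, hx, rfl⟩
        exact ⟨⟨x, hx⟩, rfl⟩
      have h6 := Nat.le_of_dvd (Nat.pos_of_ne_zero Subgroup.index_ne_zero_of_finite)
        (Subgroup.index_map_dvd (h.range.subgroupOf γ.ker) h5)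
      exact_mod_cast h4.trans h6
    rw [s2, Subgroup.index_bot, s3, hc] at h1
    exact h1.trans (mul_le_mul_of_nonneg_right h2 (hddU _ le_sup_left φ hφ))
  -- the two kinds of characters
  have hI : ∀ φ ∈ InvC M ν, (stab ⊤ φ).index = 1 := by
    intro φ hφ
    rw [Subgroup.index_eq_one, eq_top_iff]
    intro g _
    exact ⟨trivial, hφ.2 g⟩
  have hJ : ∀ φ ∈ Ab M ν \ InvC M ν, (stab ⊤ φ).index = S.index ∧ kk ⊤ φ = kk C ν ∧
      S.index * (c * (φ 1).re * kk C ν) ≤ b * dd ⊤ φ := by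
    rintro φ ⟨hφ, hφ'⟩
    have hle : M ⊔ C ≤ stab ⊤ φ := by
      apply sup_le (CLF Γ M ⊤ hMn φ hφ.1).1
      intro x hx
      refine ⟨trivial, ?_⟩
      funext g
      simp only [cj]
      by_cases hg : g ∈ M
      · rw [← a1 g hg x hx, mul_inv_cancel_right]
      · obtain ⟨ψ, hψ, hψφ⟩ := hφ.1
        rw [← hψφ, ext0, ext0, dif_neg hg, dif_neg]
        intro h
        apply hg
        have := hAG.nor.conj_mem _ h x⁻¹
        have h4 : x⁻¹ * (x * g * x⁻¹) * x⁻¹⁻¹ = g := by group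
        rwa [h4] at this
    have hne : stab ⊤ φ ≠ ⊤ := by
      intro h
      apply hφ'
      refine ⟨hφ, fun g => ?_⟩
      have : g ∈ stab ⊤ φ := by rw [h]; trivial
      exact this.2
    have hidx' := Subgroup.relIndex_mul_index hle
    rw [a3] at hidx'
    have hi1 : (stab ⊤ φ).index ≠ 1 := fun h => hne (Subgroup.index_eq_one.1 h)
    have hi2 : (stab ⊤ φ).index = S.index := by
      rcases (Nat.dvd_prime hpr).1 (Dvd.intro_left _ hidx') with h | h
      · exact absurd h hi1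
      · exact h
    rw [hi2] at hidx'
    have hi3 : (M ⊔ C).relIndex (stab ⊤ φ) = 1 :=
      Nat.eq_of_mul_eq_mul_right hpr.pos (by rw [hidx', one_mul])
    have heq : stab ⊤ φ = M ⊔ C := le_antisymm (Subgroup.relIndex_eq_one.1 hi3) hle
    obtain ⟨-, c2, c3⟩ := CLF Γ M ⊤ hMn φ hφ.1
    have h5 := hU φ hφ.1 (fun g hg => by
      have : g ∈ stab ⊤ φ := by rw [heq]; exact hg
      exact this.2)
    have h6 := PKC Γ A S Z M C _ hAl hAG ν hν φ hφ
    rw [heq] at c2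
    rw [Subgroup.relIndex_top_right, hi2, heq] at c3
    rw [h6] at h5 c2
    refine ⟨hi2, c2.symm, ?_⟩
    rw [c3]
    calc (S.index : ℝ) * (c * (φ 1).re * kk C ν) ≤ S.index * (b * dd (M ⊔ C) φ) :=
          mul_le_mul_of_nonneg_left h5 hp0.le
      _ = _ := by ring
  obtain ⟨hfin, -, -⟩ := KKP Γ Z M hZM ν hν
  have hsub : InvC M ν ⊆ Ab M ν := fun φ hφ => hφ.1
  obtain ⟨o1, o2⟩ := ORB Γ Z M hZM hZn hMn ν hν hνinv
  rw [fin_split hfin hsub] at o1 o2
  have hκ : ∃ κ : ℝ, 0 ≤ κ ∧ κ ≤ S.index * kk C ν ∧ (∀ φ ∈ InvC M ν, (kk ⊤ φ : ℝ) = κ) := by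
    by_cases hne : (InvC M ν).Nonempty
    · obtain ⟨φ0, hφ0⟩ := hne
      refine ⟨kk ⊤ φ0, Nat.cast_nonneg _, ?_, ?_⟩
      · have h1 := PIX Γ M (M ⊔ C) le_sup_left φ0 hφ0.1.1
        rw [a3, PKC Γ A S Z M C _ hAl hAG ν hν φ0 hφ0.1] at h1
        exact_mod_cast h1
      · intro φ hφ
        exact_mod_cast PKI Γ A S Z M C _ hAl hAG hpr ν hν φ hφ φ0 hφ0
    · refine ⟨0, le_rfl, by positivity, fun φ hφ => absurd ⟨φ, hφ⟩ hne⟩
  obtain ⟨κ, hκ0, hκ1, hκ2⟩ := hκ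
  set κC : ℝ := ((kk C ν : ℕ) : ℝ) with hκC
  have hκC0 : 0 ≤ κC := Nat.cast_nonneg _
  have e1 : ∑ᶠ φ ∈ InvC M ν, (kk ⊤ φ : ℝ) / (stab ⊤ φ).index = (InvC M ν).ncard * κ := by
    rw [finsum_mem_congr rfl (fun φ hφ => by rw [hI φ hφ, hκ2 φ hφ, Nat.cast_one, div_one] :
      ∀ φ ∈ InvC M ν, (kk ⊤ φ : ℝ) / (stab ⊤ φ).index = κ)]
    rw [finsum_mem_eq_finite_toFinset_sum _ (hfin.subset hsub), Finset.sum_const,
      nsmul_eq_mul, Set.ncard_eq_toFinset_card _ (hfin.subset hsub)]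
  have e2 : ∑ᶠ φ ∈ Ab M ν \ InvC M ν, (kk ⊤ φ : ℝ) / (stab ⊤ φ).index =
      (Ab M ν \ InvC M ν).ncard * (κC / S.index) := by
    rw [finsum_mem_congr rfl (fun φ hφ => by
      rw [(hJ φ hφ).1, (hJ φ hφ).2.1] :
      ∀ φ ∈ Ab M ν \ InvC M ν, (kk ⊤ φ : ℝ) / (stab ⊤ φ).index = κC / S.index)]
    rw [finsum_mem_eq_finite_toFinset_sum _ hfin.sdiff, Finset.sum_const,
      nsmul_eq_mul, Set.ncard_eq_toFinset_card _ hfin.sdiff]
  have e3 : c * κ * ∑ᶠ φ ∈ InvC M ν, (φ 1).re ≤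
      b * ∑ᶠ φ ∈ InvC M ν, dd ⊤ φ / (stab ⊤ φ).index := by
    rw [finsum_mem_eq_finite_toFinset_sum _ (hfin.subset hsub),
      finsum_mem_eq_finite_toFinset_sum _ (hfin.subset hsub), Finset.mul_sum, Finset.mul_sum]
    apply Finset.sum_le_sum
    intro φ hφ
    rw [Set.Finite.mem_toFinset] at hφ
    rw [hI φ hφ, Nat.cast_one, div_one]
    have h1 := hT φ hφ.1.1 hφ.2
    rw [hκ2 φ hφ] at h1
    linarith
  have e4 : c * κC * ∑ᶠ φ ∈ Ab M ν \ InvC M ν, (φ 1).re ≤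
      b * ∑ᶠ φ ∈ Ab M ν \ InvC M ν, dd ⊤ φ / (stab ⊤ φ).index := by
    rw [finsum_mem_eq_finite_toFinset_sum _ hfin.sdiff,
      finsum_mem_eq_finite_toFinset_sum _ hfin.sdiff, Finset.mul_sum, Finset.mul_sum]
    apply Finset.sum_le_sum
    intro φ hφ
    rw [Set.Finite.mem_toFinset] at hφ
    obtain ⟨j1, -, j3⟩ := hJ φ hφ
    rw [j1, ← mul_div_assoc, le_div_iff₀ hp0]
    linarith
  rw [o1, o2, e1, e2]
  generalize (InvC M ν).ncard = nI at *
  generalize (Ab M ν \ InvC M ν).ncard = nJ at *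
  generalize ∑ᶠ φ ∈ InvC M ν, (φ 1).re = sI at *
  generalize ∑ᶠ φ ∈ Ab M ν \ InvC M ν, (φ 1).re = sJ at *
  generalize ∑ᶠ φ ∈ InvC M ν, dd ⊤ φ / (stab ⊤ φ).index = dI at *
  generalize ∑ᶠ φ ∈ Ab M ν \ InvC M ν, dd ⊤ φ / (stab ⊤ φ).index = dJ at *
  generalize (S.index : ℝ) = p at *
  -- the inequality
  have key : u * (nI * κ + nJ * (κC / p)) ≤ sI * κ + sJ * κC := by
    have h1 : κ / p ≤ κC := by rw [div_le_iff₀ hp0]; linarith
    have h2 : u * (nJ / p) ≤ sJ := b4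
    have h3 : 0 ≤ (sJ - u * (nJ / p)) * (κC - κ / p) :=
      mul_nonneg (by linarith) (by linarith)
    have h4 : 0 ≤ (κ / p) * (p * sI + sJ - u * (p * nI + nJ / p)) :=
      mul_nonneg (div_nonneg hκ0 hp0.le) (by linarith)
    have h5 : sI * κ + sJ * κC - u * (nI * κ + nJ * (κC / p)) =
        (sJ - u * (nJ / p)) * (κC - κ / p) +
          (κ / p) * (p * sI + sJ - u * (p * nI + nJ / p)) := by
      field_simp
      ring
    linarith
  calc c * u * (nI * κ + nJ * (κC / p)) = c * (u * (nI * κ + nJ * (κC / p))) := by ring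
    _ ≤ c * (sI * κ + sJ * κC) := mul_le_mul_of_nonneg_left key hc0
    _ = c * κ * sI + c * κC * sJ := by ring
    _ ≤ b * dI + b * dJ := add_le_add e3 e4
    _ = b * (dI + dJ) := by ring

end Pool.Agent.H6.FC
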