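import Pool.Agent.H6.FC.Lem

/-!
# MP_7500ea_al, board cfp_modules: row ST2
-/

open scoped Classical ComplexConjugate

namespace Pool.Agent.H6.FC

open FI AMc AMt

theorem one_le_gg (e : ℝ) (he : 1 ≤ e) (S : Type) [Group S] [Finite S] : 1 ≤ gg e S := by
  have h1 : (1 : ℝ) ≤ (24 : ℝ) ^ ((1 : ℝ) / 3) := Real.one_le_rpow (by norm_num) (by norm_num)
  have h2 : (1 : ℝ) ≤ Nat.card (MulAut S) := by exact_mod_cast Nat.card_pos
  exact Real.one_le_rpow (by nlinarith) (by positivity)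

theorem pf_ST2 (CPF : T_CPF) (SYM : T_SYM) (DLB : T_DLB) (ORB : T_ORB) (IDX : T_IDX)
    (SBD : T_SBD) (KKP : T_KKP) (ABL : T_ABL) : T_ST2 := by
  intro e he Y _ _ hs L hL k S _ _ hk hg ⟨φ⟩ hCA Γ _ _ Z h hC ν hν
  have he0 : 0 < e := by linarith
  have hnas : NAS S := ⟨hg.sim, hg.nab⟩
  obtain ⟨J, _, N, π, σ, a, hd, hNL, hJ⟩ := CPF Y Γ S hnas Z h hC L hL k φ
  have hg1 := one_le_gg e he S
  have hg0 : 0 ≤ gg e S := zero_le_one.trans hg1
  set g := gg e S with hgdef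
  set A : ℝ := ((sol (Y ⧸ L)).index : ℝ) ^ (1 / e) with hA
  have hA0 : 0 ≤ A := by positivity
  set B : ℝ := ((L ⊔ h.range).index : ℝ) with hB
  have hB0 : 0 ≤ B := Nat.cast_nonneg _
  have hNn : NIn N ⊤ := nin_of_normal hd.nor
  have hZn : NIn Z ⊤ := nin_of_normal (cen_nor hC.cen)
  obtain ⟨o1, o2⟩ := ORB Γ Z N hd.le hZn hNn ν hν (fun u => cen_inv hC.cen hν u)
  obtain ⟨hfin, -, -⟩ := KKP Γ Z N hd.le ν hν
  have hsym := SYM e Γ S J hg Z N π σ a hd ν hν
  rw [← o1] at hsym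
  -- the characters of `N`
  have h1 : A * (g ^ Nat.card J * kk ⊤ ν) ≤ B * dd ⊤ ν := by
    calc A * (g ^ Nat.card J * kk ⊤ ν)
        ≤ A * ∑ᶠ ψ ∈ Ab N ν, (ψ 1).re * ((kk ⊤ ψ : ℝ) / (stab ⊤ ψ).index) :=
          mul_le_mul_of_nonneg_left hsym hA0
      _ ≤ B * dd ⊤ ν := by
          rw [o2, finsum_mem_eq_finite_toFinset_sum _ hfin,
            finsum_mem_eq_finite_toFinset_sum _ hfin, Finset.mul_sum, Finset.mul_sum]
          apply Finset.sum_le_sum
          intro ψ hψ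
          rw [Set.Finite.mem_toFinset] at hψ
          have h2 := DLB e Y L hCA Γ h N hd.nor hNL ψ hψ.1
          have h3 : (0 : ℝ) ≤ (stab ⊤ ψ).index := Nat.cast_nonneg _
          calc A * ((ψ 1).re * ((kk ⊤ ψ : ℝ) / (stab ⊤ ψ).index))
              = (A * (ψ 1).re * kk ⊤ ψ) / (stab ⊤ ψ).index := by ring
            _ ≤ (B * dd ⊤ ψ) / (stab ⊤ ψ).index := div_le_div_of_nonneg_right h2 h3
            _ = _ := by ring
  -- the index
  have h2 : g ^ (k - Nat.card J) ≤ (h.range.relIndex L : ℝ) := by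
    let ρ : (Fin k → S) →* Y := L.subtype.comp φ.symm.toMonoidHom
    have h3 := IDX S hnas g hg1 hg.idx hg.sqr (Fin k) (h.range.comap ρ)
    have h4 : (h.range.comap ρ).index = h.range.relIndex L := by
      rw [Subgroup.index_comap]
      congr 1
      ext y
      constructor
      · rintro ⟨x, rfl⟩
        exact (φ.symm x).2
      · intro hy
        exact ⟨φ ⟨y, hy⟩, by
          change ((φ.symm (φ ⟨y, hy⟩) : L) : Y) = y
          rw [MulEquiv.symm_apply_apply]⟩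
    have h5 : Nat.card {i : Fin k // ¬ ∀ s : S, Pi.mulSingle i s ∈ h.range.comap ρ} =
        k - Nat.card J := by
      rw [hJ]
      have h6 : Fintype.card {i : Fin k // ¬ ∀ s : S, ((φ.symm (Pi.mulSingle i s) : L) : Y) ∈
          h.range} = Fintype.card (Fin k) - Fintype.card {i : Fin k // ∀ s : S,
            ((φ.symm (Pi.mulSingle i s) : L) : Y) ∈ h.range} :=
        Fintype.card_subtype_compl _
      rw [Fintype.card_fin] at h6
      rw [Nat.card_eq_fintype_card, Nat.card_eq_fintype_card]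
      exact h6
    rw [h5, h4] at h3
    exact h3
  have h3 : (h.range.index : ℝ) = B * (h.range.relIndex L : ℝ) := by
    rw [hB, sup_comm]
    exact_mod_cast idx_sup h.range L
  have hJk : Nat.card J ≤ k := by
    rw [hJ]
    have := Nat.card_le_card_of_injective (fun i : {i : Fin k // ∀ s : S,
      ((φ.symm (Pi.mulSingle i s) : L) : Y) ∈ h.range} => (i : Fin k)) Subtype.val_injective
    rwa [Nat.card_eq_fintype_card, Nat.card_eq_fintype_card, Fintype.card_fin,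
      ← Nat.card_eq_fintype_card] at this
  -- the order of `Y`
  have h4 : (Nat.card Y : ℝ) ^ (1 / e) ≤ g ^ k * A := by
    have h5 := SBD Y hs L S hnas k hk ⟨φ⟩
    have h6 : (1 : ℝ) ≤ c0 := (Real.one_le_rpow (by norm_num) (by norm_num))
    have h7 : (Nat.card Y : ℝ) ≤ (c0 * Nat.card (MulAut S)) ^ k * ((sol (Y ⧸ L)).index : ℝ) := by
      refine h5.trans ?_
      rw [mul_pow]
      apply mul_le_mul_of_nonneg_right _ (Nat.cast_nonneg _)
      apply mul_le_mul_of_nonneg_right _ (by positivity)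
      exact pow_le_pow_right₀ h6 (Nat.sub_le _ _)
    have h8 : (0 : ℝ) ≤ c0 * Nat.card (MulAut S) := mul_nonneg (by linarith) (Nat.cast_nonneg _)
    have h9 := Real.rpow_le_rpow (Nat.cast_nonneg _) h7 (by positivity : 0 ≤ 1 / e)
    rw [Real.mul_rpow (pow_nonneg h8 _) (Nat.cast_nonneg _)] at h9
    have h10 : ((c0 * Nat.card (MulAut S)) ^ k) ^ (1 / e) = g ^ k := by
      rw [hgdef, gg, ← Real.rpow_natCast, ← Real.rpow_mul h8, mul_comm (k : ℝ) (1 / e),
        Real.rpow_mul h8, Real.rpow_natCast]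
      rfl
    rwa [h10] at h9
  obtain ⟨-, -, k3⟩ := KKP Γ Z ⊤ le_top ν hν
  have hd0 : 0 ≤ dd ⊤ ν := (Nat.cast_nonneg _).trans k3
  have hk0 : (0 : ℝ) ≤ kk ⊤ ν := Nat.cast_nonneg _
  calc (Nat.card Y : ℝ) ^ (1 / e) * kk ⊤ ν ≤ g ^ k * A * kk ⊤ ν :=
        mul_le_mul_of_nonneg_right h4 hk0
    _ = g ^ (k - Nat.card J) * (A * (g ^ Nat.card J * kk ⊤ ν)) := by
        have : g ^ k = g ^ (k - Nat.card J) * g ^ Nat.card J := by
          rw [← pow_add, Nat.sub_add_cancel hJk]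
        rw [this]; ring
    _ ≤ g ^ (k - Nat.card J) * (B * dd ⊤ ν) :=
        mul_le_mul_of_nonneg_left h1 (pow_nonneg hg0 _)
    _ ≤ (h.range.relIndex L : ℝ) * (B * dd ⊤ ν) :=
        mul_le_mul_of_nonneg_right h2 (mul_nonneg hB0 hd0)
    _ = _ := by rw [h3]; ring

end Pool.Agent.H6.FC
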