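import Pool.Agent.H6.FC.Targets

/-!
# MP_7500ea_al, board cfp_modules, row TRD
-/

open scoped Classical ComplexConjugate

namespace Pool.Agent.H6.FC

open FI AMc AMt

theorem pf_TRD (TRC : T_TRC) : T_TRD := by
  intro e Y _ _ hs hC Γ _ _ K U hKU θ hθ hinv h hk
  have hidx : ((sol Y).index : ℝ) = (Nat.card Y : ℝ) := by
    rw [hs, Subgroup.index_bot]
  have hri : 0 < h.range.index := Nat.pos_of_ne_zero Subgroup.index_ne_zero_of_finite
  have hri' : (0 : ℝ) < (h.range.index : ℝ) := by exact_mod_cast hri
  set c : ℝ := (Nat.card Y : ℝ) ^ (1 / e) / (h.range.index : ℝ) with hc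
  have hc0 : 0 ≤ c := div_nonneg (Real.rpow_nonneg (Nat.cast_nonneg _) _) hri'.le
  have key := TRC h.range c hc0 (by
    intro Γ' _ _ Z q' hq' ν hν
    have hce : CEx Z (h.range.subtype.comp q') := by
      refine ⟨fun x => ?_, hq'.cen⟩
      rw [← hq'.ker x]
      simp only [MonoidHom.comp_apply, Subgroup.subtype_apply]
      exact ⟨fun hx => Subtype.ext hx, fun hx => by rw [hx]; rfl⟩
    have hr : (h.range.subtype.comp q').range = h.range := by
      rw [MonoidHom.range_comp, MonoidHom.range_eq_top.mpr hq'.sur]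
      ext y
      simp
    have h1 := hC Γ' Z (h.range.subtype.comp q') hce ν hν
    rw [hr] at h1
    rw [hc, div_mul_eq_mul_div, div_le_iff₀ hri']
    linarith) Γ K U hKU θ hθ hinv h.rangeRestrict h.rangeRestrict_surjective (by
    intro x
    rw [← hk x]
    constructor
    · intro hx
      have := congrArg Subtype.val hx
      simpa using this
    · intro hx
      exact Subtype.ext (by simpa using hx))
  rw [hidx]
  have e1 : (Nat.card Y : ℝ) ^ (1 / e) = c * (h.range.index : ℝ) := by
    rw [hc, div_mul_cancel₀ _ hri'.ne']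
  rw [e1]
  calc c * (h.range.index : ℝ) * (θ 1).re * kk U θ
      = (h.range.index : ℝ) * (c * (θ 1).re * kk U θ) := by ring
    _ ≤ (h.range.index : ℝ) * dd U θ := mul_le_mul_of_nonneg_left key hri'.le

end Pool.Agent.H6.FC
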