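import Pool.Agent.H6.FIB.All
import Pool.Agent.H6.FC.Asm3
import Pool.Agent.H10.FC.SG5
import Pool.Agent.H10.FC.SPB
import Pool.Agent.H13.FC.PAM
import Pool.Agent.H13.FC.PAU
import Pool.Agent.H14.FC.CPF
import Pool.Agent.H14.FC.DLB
import Pool.Agent.H14.FC.KRN
import Pool.Agent.H14.FC.SHM
import Pool.Agent.H19.FC.EXI
import Pool.Agent.H19.FC.PA5
import Pool.Agent.H19.FC.PAV
import Pool.Agent.H32.FC.ACT
import Pool.Agent.H32.FC.DIX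
import Pool.Agent.H32.FC.EIR
import Pool.Agent.H36.FC.CP2
import Pool.Agent.H36.FC.ONE
import Pool.Agent.H36.FC.S1C
import Pool.Agent.H36.FC.UNQ
import Pool.Agent.H45.FC.N
import Pool.Agent.H45.FC.P
import Pool.Agent.H46.FC.DX2
import Pool.Agent.H46.FC.FXC
import Pool.Agent.H5.FC.SGP
import Pool.Agent.H53.FC.IDX
import Pool.Agent.H53.FC.KKH
import Pool.Agent.H53.FC.SBD
import Pool.Agent.H53.FC.SYM
import Pool.Agent.H6.FC.DX3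
import Pool.Agent.H6.FC.EDI
import Pool.Agent.H6.FC.S1E
import Pool.Agent.H6.FC.S1F
import Pool.Agent.H6.FC.ST2
import Pool.Agent.H6.FC.TRD
import Pool.Agent.H67.FC.S1A
import Pool.Agent.H74.FC.KPS
import Pool.Agent.H78.FC.N53
import Pool.Agent.H8.FC.CYC
import Pool.Agent.H8.FC.GIG
import Pool.Agent.H8.FC.PSI
import Pool.Agent.H86.FC.CPM
import Pool.Agent.H86.FC.MMF
import Pool.Agent.H86.FC.TE1
import Pool.Agent.H86.FC.TEN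
import Pool.Agent.H89.FC.EDG
import Pool.Agent.H97.FC.BPL
import Pool.Agent.H97.FC.CHM
import Pool.Agent.H97.FC.N85
import Pool.Agent.H97.FC.STC

/-!
# MP_7500ea_al, board cfp_modules: composition of the rows
-/

open scoped Classical ComplexConjugate

namespace FI.All3

open FI FI.All FI.All2 AMc AMt

theorem rKRN : T_KRN := Pool.Agent.H14.FC.pf_KRN rCLF rSPL rDGL rKKP
theorem rSLQ : T_SLQ := Pool.Agent.H14.FC.pf_SLQ rSOL rKKP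
theorem rTRD : T_TRD := Pool.Agent.H6.FC.pf_TRD rTRC
theorem rCIS : T_CIS := Pool.Agent.H14.FC.pf_CIS rSQ
theorem rDLB : T_DLB := Pool.Agent.H14.FC.pf_DLB rCLF rKKP
theorem rNSK : T_NSK := Pool.Agent.H45.FC.pf_NSK 
theorem rNSQ : T_NSQ := Pool.Agent.H45.FC.pf_NSQ rNSK
theorem rSEQ : T_SEQ := Pool.Agent.H45.FC.pf_SEQ rNSQ
theorem rSEN : T_SEN := Pool.Agent.H45.FC.pf_SEN rNSQ
theorem rMNL : T_MNL := Pool.Agent.H45.FC.pf_MNL rSOL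
theorem rPRM : T_PRM := Pool.Agent.H45.FC.pf_PRM rNSK
theorem rACT : T_ACT := Pool.Agent.H32.FC.pf_ACT rPRM
theorem rDX3 : T_DX3 := Pool.Agent.H6.FC.pf_DX3 rAFF rFAC rND hPW
theorem rDX2 : T_DX2 := Pool.Agent.H46.FC.pf_DX2 rDX3
theorem rDIX : T_DIX := Pool.Agent.H32.FC.pf_DIX rDX2
theorem rSBD : T_SBD := Pool.Agent.H53.FC.pf_SBD rSOL rACT rDIX
theorem rIDX : T_IDX := Pool.Agent.H53.FC.pf_IDX 
theorem rMMF : T_MMF := Pool.Agent.H86.FC.pf_MMF 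
theorem rCP2 : T_CP2 := Pool.Agent.H36.FC.pf_CP2 rABL rSSQ
theorem rCPM : T_CPM := Pool.Agent.H86.FC.pf_CPM rCP2
theorem rSTC : T_STC := Pool.Agent.H97.FC.pf_STC 
theorem rUNQ : T_UNQ := Pool.Agent.H36.FC.pf_UNQ 
theorem rEIR : T_EIR := Pool.Agent.H32.FC.pf_EIR 
theorem rEX0 : T_EX0 := Pool.Agent.H36.FC.pf_EX0 
theorem rSHM : T_SHM := Pool.Agent.H14.FC.pf_SHM rUNQ rEIR rEX0
theorem rTE1 : T_TE1 := Pool.Agent.H86.FC.pf_TE1 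
theorem rTEN : T_TEN := Pool.Agent.H86.FC.pf_TEN rTE1
theorem rGIG : T_GIG := FI.pf_GIG 
theorem rKKH : T_KKH := Pool.Agent.H53.FC.pf_KKH rCLF rSTC rUNQ rEIR rEX0 rSHM rTEN rGIG
theorem rAGM : T_AGM := FI.pf_AGM 
theorem rCYC : T_CYC := FI.pf_CYC 
theorem rSYM : T_SYM := Pool.Agent.H53.FC.pf_SYM rMMF rCPM rEX0 rUNQ rEIR rSHM rKKH rAGM rCYC rKKP
theorem rCPF : T_CPF := Pool.Agent.H14.FC.pf_CPF rACT
theorem rST2 : T_ST2 := Pool.Agent.H6.FC.pf_ST2 rCPF rSYM rDLB rORB rIDX rSBD rKKP rABL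
theorem rS1A : T_S1A := Pool.Agent.H67.FC.pf_S1A rSOL rALS
theorem rS1E : T_S1E := Pool.Agent.H6.FC.pf_S1E rPSK rPEC rCVT rCPR rABL rKKP
theorem rS1F : T_S1F := Pool.Agent.H6.FC.pf_S1F rPSK rPEC rCVT rPKC rPKI rORB rPIX rKKP rCLF rDGL rCIS rDLB rABL
theorem rS1C : T_S1C := Pool.Agent.H36.FC.pf_S1C rDLB rSBD rABL rKKP
theorem rPSI : T_PSI := FI.pf_PSI 
theorem rPAU : T_PAU := Pool.Agent.H13.FC.pf_PAU rCRD rUBF
theorem rPAM : T_PAM := Pool.Agent.H13.FC.pf_PAM rCRD rSLG rUBF rALQ rSOL rALS rPAU rPSI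
theorem rPA5 : T_PA5 := Pool.Agent.H19.FC.pf_PA5 rS5S rS5V rAL5 rALS rSOL
theorem rCHM : T_CHM := Pool.Agent.H97.FC.pf_CHM 
theorem rSPB : T_SPB := Pool.Agent.H10.FC.pf_SPB rPAM rPA5 rPSI rCRD rIDQ rALQ rALS rAL5 rS5S rS5R rS5V rSOL
theorem rONE : T_ONE := Pool.Agent.H36.FC.pf_ONE rSPB rPAM rPA5 rCHQ rQ2A rALQ rAL5 rCH5 rCHM rNE
theorem rEXI : T_EXI := Pool.Agent.H19.FC.pf_EXI 
theorem rBPL : T_BPL := Pool.Agent.H97.FC.pf_BPL 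
theorem rPAV : T_PAV := Pool.Agent.H19.FC.pf_PAV rPAM rPAU rPSI rCRD rALQ rALS rSOL
theorem rFXC : T_FXC := Pool.Agent.H46.FC.pf_FXC 
theorem rEDG : T_EDG := Pool.Agent.H89.FC.pf_EDG rMUL rPSI rQ2A rCRD rABL
theorem rEDI : T_EDI := Pool.Agent.H6.FC.pf_EDI rMUL rPSI rQ2A rCRD rLCH rALQ rALS rSOL
theorem rSGP : T_SGP := Pool.Agent.H5.FC.pf_SGP rSPB rEX0 rEXI rBPL rPAV rFXC rEDG rEDI
theorem rSG5 : T_SG5 := Pool.Agent.H10.FC.pf_SG5 rSPB rEX0 rEXI rA5T rLCH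
theorem rN53 : T_N53 := Pool.Agent.H78.FC.pf_N53 
theorem rN85 : T_N85 := Pool.Agent.H97.FC.pf_N85 
theorem rKPS : T_KPS := Pool.Agent.H74.FC.pf_KPS rCRD rDK1 rDK2 rDK3 rH60 rPSI rS5V rS5S rSOL

theorem rMAI : T_MAI := mai rSOL rKKP rKRN rSLQ rTRD rSEQ rSEN rMNL rST2 rS1A rS1E rS1F rS1C

theorem rFIN : T_FIN := fin' rSOL rFNL rCLF rKKP rBRG rLCH rCRN rDUA hLO

/-- the reduction to conditions on simple groups -/
theorem hSer (e : ℝ) (he : 91 / 25 ≤ e) (G : Type) [Group G] [Finite G] (hG : Ser (PP e) G) :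
    ∃ θ ∈ Irr (fit G), θ 1 = 1 ∧ ((fit G).index : ℝ) ≤ acd (fit G) θ ^ e :=
  ser_thm rSEQ rMAI rFIN e he G hG

theorem hPQ (e : ℝ) (he : e0 ≤ e) (G : Type) [Group G] [Finite G] (hG : Ser (PQ e) G) :
    ∃ θ ∈ Irr (fit G), θ 1 = 1 ∧ ((fit G).index : ℝ) ≤ acd (fit G) θ ^ e :=
  hSer e (rNE.1.trans he) G (ser_mono (fun k S _ _ h => pq_pp rONE rSGP rSG5 e he
    (by have := rNE.1; linarith) k S h) G hG)

theorem hPQ' (e : ℝ) (h : ∀ (G : Type) [Group G] [Finite G], Ser (PQ e) G →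
    ∃ θ ∈ Irr (fit G), θ 1 = 1 ∧ ((fit G).index : ℝ) ≤ acd (fit G) θ ^ e) : e0 ≤ e :=
  hKp4 e fun G _ _ hG => h G (rKPS e G hG)

theorem hInv (e : ℝ) (he : 1 ≤ e)
    (G : Type) [Group G] [Finite G] (N : Subgroup G) (θ : N → ℂ) (hθ : θ ∈ Irr N)
    (hinv : ∀ g : G, ∀ a b : N, (b : G) = g * a * g⁻¹ → θ b = θ a)
    (Y : Type) [Group Y] [Finite Y] (q : G →* Y) (hY : Ser (PP e) Y)
    (hq : Function.Surjective q) (hker : q.ker = N) :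
    (θ 1).re * ((sol Y).index : ℝ) ^ (1 / e) ≤ acd N θ :=
  inv_thm rKKP rBRG rMAI e he G N θ hθ hinv Y q hY hq hker

theorem hInvP (e : ℝ) (he : e0 ≤ e)
    (G : Type) [Group G] [Finite G] (N : Subgroup G) (θ : N → ℂ) (hθ : θ ∈ Irr N)
    (hinv : ∀ g : G, ∀ a b : N, (b : G) = g * a * g⁻¹ → θ b = θ a)
    (Y : Type) [Group Y] [Finite Y] (q : G →* Y) (hY : Ser (PQ e) Y)
    (hq : Function.Surjective q) (hker : q.ker = N) :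
    (θ 1).re * ((sol Y).index : ℝ) ^ (1 / e) ≤ acd N θ :=
  hInv e (by have := rNE.1; linarith) G N θ hθ hinv Y q
    (ser_mono (fun k S _ _ h => pq_pp rONE rSGP rSG5 e he
      (by have := rNE.1; linarith) k S h) Y hY) hq hker

theorem hRR (e : ℝ) (he : 91 / 25 ≤ e) (Y : Type) [Group Y] [Finite Y] (hs : sol Y = ⊥)
    (H : ∀ (T : Subgroup Y) (X : Type) [Group X] [Finite X] (q : X →* T),
      Function.Surjective q → q.ker ≤ Subgroup.center X → ∀ ν ∈ Irr q.ker,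
      (Nat.card Y : ℝ) ^ (1 / e) ≤ T.index * acd q.ker ν)
    (G : Type) [Group G] [Finite G] (f : G →* Y) (hf : Function.Surjective f)
    (hk : Group.IsSolvable f.ker) :
    ∃ θ ∈ Irr (fit G), θ 1 = 1 ∧ ((fit G).index : ℝ) ≤ acd (fit G) θ ^ e :=
  rr_thm rSOL rSQ rBRG rKKP rKRN rTRD rCIS rFIN e he Y hs H G f hf hk

end FI.All3
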