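import Pool.Agent.H6.FC.Lem
import Pool.Agent.H6.FI.AsmC

/-!
# MP_7500ea_al, board fc_modules: assembly
-/

open scoped Classical ComplexConjugate

namespace FI

open AMc AMt

/-- the one step: `CEN` for a group with trivial radical -/
theorem sol_nt_card (Y : Type) [Group Y] [Finite Y] (hs : sol Y ≠ ⊥) :
    Nat.card (Y ⧸ sol Y) < Nat.card Y := by
  have h1 := Subgroup.card_mul_index (sol Y)
  have h2 : 1 < Nat.card (sol Y) := by
    rw [Subgroup.one_lt_card_iff_ne_bot]; exact hs
  have h3 : 0 < (sol Y).index := Nat.pos_of_ne_zero Subgroup.index_ne_zero_of_finite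
  change (sol Y).index < Nat.card Y
  nlinarith

theorem quo_card (Y : Type) [Group Y] [Finite Y] (L : Subgroup Y) (hL : L ≠ ⊥) :
    Nat.card (Y ⧸ L) < Nat.card Y := by
  have h1 := Subgroup.card_mul_index L
  have h2 : 1 < Nat.card L := by
    rw [Subgroup.one_lt_card_iff_ne_bot]; exact hL
  have h3 : 0 < L.index := Nat.pos_of_ne_zero Subgroup.index_ne_zero_of_finite
  change L.index < Nat.card Y
  nlinarith

theorem cla_PP (e : ℝ) : Cla (PP e) := by
  constructor
  · rintro k k' S _ hk (h | ⟨h1, h2⟩)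
    · exact Or.inl h
    · exact Or.inr ⟨hk.trans h1, h2⟩
  · rintro k S _ (h | ⟨h1, h2⟩)
    · exact ⟨h.sim, h.nab⟩
    · exact ⟨h2.sim, h2.nab⟩

/-- the claim for groups with a series -/
theorem mai (SOL : T_SOL) (KKP : T_KKP) (KRN : T_KRN) (SLQ : T_SLQ) (TRD : T_TRD) (SEQ : T_SEQ)
    (SEN : T_SEN) (MNL : T_MNL) (ST2 : T_ST2) (S1A : T_S1A) (S1E : T_S1E) (S1F : T_S1F)
    (S1C : T_S1C) : T_MAI := by
  intro e he
  have key : ∀ (n : ℕ) (Y : Type) [Group Y] [Finite Y], Nat.card Y = n → Ser (PP e) Y →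
      CA e Y := by
    intro n
    induction n using Nat.strong_induction_on with
    | _ n ih =>
    intro Y _ _ hn hser
    by_cases hs : sol Y = ⊥
    swap
    · exact SLQ e Y (ih _ (hn ▸ sol_nt_card Y hs) _ rfl
        (SEQ _ (cla_PP e) Y (sol Y) hser))
    apply KRN e Y
    apply TRD e Y hs
    by_cases hnt : Nontrivial Y
    swap
    · rw [not_nontrivial_iff_subsingleton] at hnt
      intro Γ _ _ Z h hC ν hν
      have h1 : Nat.card Y = 1 := Nat.card_of_subsingleton 1
      have h2 : h.range.index = 1 := by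
        rw [Subgroup.index_eq_one]
        exact Subsingleton.elim _ _
      rw [h1, h2, Nat.cast_one, Real.one_rpow, one_mul, one_mul]
      exact (KKP Γ Z ⊤ le_top ν hν).2.2
    obtain ⟨L, hL, k, S, _, _, hk, hP, ⟨φ⟩⟩ := MNL (PP e) Y hs hser
    have hnas : NAS S := (cla_PP e).nas k S hP
    have hL1 : L ≠ ⊥ := by
      intro h0
      obtain ⟨a, b, hab⟩ := hnas.nab
      apply hab
      have hsub : Subsingleton L := by rw [h0]; infer_instance
      have h3 : Subsingleton (Fin k → S) := φ.symm.injective.subsingleton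
      have h4 := congrFun (Subsingleton.elim (fun _ : Fin k => a) (fun _ => 1)) ⟨0, hk⟩
      have h5 : a = 1 := h4
      rw [h5, one_mul, mul_one]
    have hQ : CA e (Y ⧸ L) := ih _ (hn ▸ quo_card Y L hL1) _ rfl (SEQ _ (cla_PP e) Y L hser)
    rcases hP with hg | ⟨hk1, hone⟩
    · exact ST2 e he Y hs L k S hk hg ⟨φ⟩ hQ
    · have hk2 : k = 1 := le_antisymm hk1 hk
      subst hk2
      have φ' : L ≃* S := φ.trans (MulEquiv.funUnique (Fin 1) S)
      obtain ⟨A, _, _, S', γ, hd⟩ := S1A e Y S hone L hL ⟨φ'⟩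
      have hker : Ser (PP e) γ.ker := SEN _ (cla_PP e) Y γ.ker inferInstance hser
      have hlt : Nat.card γ.ker < Nat.card Y := by
        apply lt_of_le_of_ne (Subgroup.card_le_card_group _)
        intro h0
        have h1 : γ.ker = ⊤ := Subgroup.eq_top_of_card_eq _ h0
        have h2 := hd.inf
        rw [h1, inf_top_eq] at h2
        exact hL1 h2
      have hK : CA e γ.ker := ih _ (hn ▸ hlt) _ rfl hker
      intro Γ _ _ Z h hC
      by_cases hLr : L ≤ h.range
      · by_cases hsur : Function.Surjective (γ.comp h)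
        · rcases hd.al.idx with h1 | h1
          · refine S1E e he Y A hs L S' γ hd hK Γ Z h hC hLr ?_
            rw [Subgroup.index_eq_one.1 h1]
            exact MonoidHom.range_eq_top.2 hsur
          · exact S1F e he Y A hs L S' γ hd h1 hK hQ Γ Z h hC hLr hsur
        · refine S1E e he Y A hs L S' γ hd hK Γ Z h hC hLr ?_
          have hle : S' ≤ (γ.comp h).range := by
            rw [← hd.map]
            rintro _ ⟨l, hl, rfl⟩
            obtain ⟨x, rfl⟩ := hLr hl
            exact ⟨x, rfl⟩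
          have hne : (γ.comp h).range.index ≠ 1 := by
            rw [Ne, Subgroup.index_eq_one]
            intro h2
            exact hsur (MonoidHom.range_eq_top.1 h2)
          have hmul := Subgroup.relIndex_mul_index hle
          rcases hd.al.idx with h1 | h1
          · rw [h1] at hmul
            exact absurd (Nat.eq_one_of_mul_eq_one_left hmul) hne
          · have hdv : (γ.comp h).range.index ∣ S'.index := Dvd.intro_left _ hmul
            rcases (Nat.dvd_prime h1).1 hdv with h2 | h2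
            · exact absurd h2 hne
            · rw [h2] at hmul
              have h3 : S'.relIndex (γ.comp h).range = 1 :=
                Nat.eq_of_mul_eq_mul_right h1.pos (by rw [hmul, one_mul])
              exact le_antisymm (Subgroup.relIndex_eq_one.1 h3) hle
      · exact S1C e he Y S hs L hone ⟨φ'⟩ hQ Γ Z h hC hLr
  intro Y _ _ hser
  exact key _ Y rfl hser

/-- from the claim for `G / Sol(G)` to the theorem on the Fitting subgroup -/
theorem fin' (SOL : T_SOL) (FNL : T_FNL) (CLF : T_CLF) (KKP : T_KKP)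
    (BRG : T_BRG) (LCH : T_LCH) (CRN : T_CRN) (DUA : T_DUA) (hLO : ∀ n, PLO n) : T_FIN := by
  intro e he G _ _ hCA
  have := Fintype.ofFinite G
  have he0 : 0 < e := by linarith
  obtain ⟨l, hl⟩ := lam CRN SOL DUA hLO G
  have hθI : (fun a : fit G => ((l a : ℂˣ) : ℂ)) ∈ Irr (fit G) := LCH (fit G) l
  refine ⟨_, hθI, by simp, ?_⟩
  obtain ⟨hθS, hacd⟩ := BRG G (fit G) _ hθI
  generalize hθ' : ext0 (fit G) (fun a : fit G => ((l a : ℂˣ) : ℂ)) = θ' at hθS hacd
  have hnF : (fit G).Normal := fit_normal G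
  have hv : ∀ g, g ∉ fit G → θ' g = 0 := by
    intro g hg
    rw [← hθ', ext0, dif_neg hg]
  have hv' : ∀ a : fit G, θ' a = ((l a : ℂˣ) : ℂ) := by
    intro a
    rw [← hθ', ext0, dif_pos a.2]
  have hnin : NIn (fit G) ⊤ := ⟨le_top, fun u _ g hg => hnF.conj_mem g hg u⟩
  obtain ⟨c1, c2, c3⟩ := CLF G (fit G) ⊤ hnin θ' hθS
  have hTmem : ∀ g, g ∈ stab ⊤ θ' ↔ ∀ a b : fit G, (b : G) = g * a * g⁻¹ → l b = l a := by
    intro g
    constructor
    · rintro ⟨-, hg⟩ a b hab
      have h1 := congrFun hg (a : G)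
      simp only [cj] at h1
      rw [← hab, hv', hv'] at h1
      exact Units.ext h1
    · intro h
      refine ⟨trivial, ?_⟩
      funext x
      simp only [cj]
      by_cases hx : x ∈ fit G
      · have h1 := h ⟨x, hx⟩ ⟨g * x * g⁻¹, hnF.conj_mem x hx g⟩ rfl
        have h2 := hv' ⟨x, hx⟩
        have h3 := hv' ⟨g * x * g⁻¹, hnF.conj_mem x hx g⟩
        simp only at h2 h3
        rw [h2, h3, h1]
      · rw [hv x hx, hv]
        intro h1
        apply hx
        have h2 := hnF.conj_mem _ h1 g⁻¹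
        have h3 : g⁻¹ * (g * x * g⁻¹) * g⁻¹⁻¹ = x := by group
        rwa [h3] at h2
  have hlT := hl (stab ⊤ θ') hTmem
  set T := stab ⊤ θ' with hT
  have hθ1 : (θ' 1).re = 1 := by
    have := hv' 1
    rw [map_one, Units.val_one, OneMemClass.coe_one] at this
    rw [this, Complex.one_re]
  -- the claim
  have hfs : fit G ≤ sol G := (FNL G).2.2
  have hC := hCA G (fit G) T ⟨c1, fun u _ g hg => hnF.conj_mem g hg u⟩ θ' hθS
    (fun u hu => hu.2) ((QuotientGroup.mk' (sol G)).comp T.subtype) (by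
      intro x hx
      rw [MonoidHom.comp_apply, ← MonoidHom.mem_ker, QuotientGroup.ker_mk']
      exact hfs hx)
  have hs1 : sol (G ⧸ sol G) = ⊥ := (SOL G).2.2.2
  have hidx : (sol (G ⧸ sol G)).index = (sol G).index := by
    rw [hs1, Subgroup.index_bot]; rfl
  have hrange : ((QuotientGroup.mk' (sol G)).comp T.subtype).range.index * T.relIndex (sol G) =
      T.index := by
    have h1 : ((QuotientGroup.mk' (sol G)).comp T.subtype).range = T.map (QuotientGroup.mk' _) := by
      rw [MonoidHom.range_comp, Subgroup.range_subtype]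
    rw [h1, idx_map_mk]
    exact (idx_sup T (sol G)).symm
  rw [hidx, hθ1, mul_one, c2] at hC
  rw [Subgroup.relIndex_top_right] at c3
  obtain ⟨-, k1, -⟩ := KKP G (fit G) ⊤ le_top θ' hθS
  have k2 : (0 : ℝ) < kk ⊤ θ' := by exact_mod_cast k1
  have h1F : (1 : ℝ) ≤ (T.relIndex (sol G) : ℝ) := by
    exact_mod_cast rel_pos _ _
  have hlT' : ((fit G).relIndex (sol G) : ℝ) ^ (1 / e) ≤ (T.relIndex (sol G) : ℝ) := by
    have h1 := hlT.trans (Real.rpow_le_rpow_of_exponent_le h1F he)
    have h2 := Real.rpow_le_rpow (Nat.cast_nonneg _) h1 (by positivity : 0 ≤ 1 / e)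
    rw [← Real.rpow_mul (Nat.cast_nonneg _), mul_one_div_cancel he0.ne', Real.rpow_one] at h2
    exact h2
  have hmul : ((fit G).index : ℝ) = ((fit G).relIndex (sol G) : ℝ) * ((sol G).index : ℝ) := by
    exact_mod_cast (Subgroup.relIndex_mul_index hfs).symm
  have h3 : ((fit G).index : ℝ) ^ (1 / e) * kk ⊤ θ' ≤
      acd (fit G) (fun a : fit G => ((l a : ℂˣ) : ℂ)) * kk ⊤ θ' := by
    rw [hacd, c3, hmul, Real.mul_rpow (Nat.cast_nonneg _) (Nat.cast_nonneg _), ← hrange]
    push_cast
    calc ((fit G).relIndex (sol G) : ℝ) ^ (1 / e) * ((sol G).index : ℝ) ^ (1 / e) * kk ⊤ θ'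
        = ((fit G).relIndex (sol G) : ℝ) ^ (1 / e) * (((sol G).index : ℝ) ^ (1 / e) * kk ⊤ θ') := by
          ring
      _ ≤ (T.relIndex (sol G) : ℝ) * (((sol G).index : ℝ) ^ (1 / e) * kk ⊤ θ') := by
          apply mul_le_mul_of_nonneg_right hlT' (by positivity)
      _ ≤ (T.relIndex (sol G) : ℝ) *
          ((((QuotientGroup.mk' (sol G)).comp T.subtype).range.index : ℝ) * dd T θ') :=
          mul_le_mul_of_nonneg_left hC (by positivity)
      _ = _ := by ring
  have h4 := le_of_mul_le_mul_right h3 k2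
  have h5 : (((fit G).index : ℝ) ^ (1 / e)) ^ e ≤
      acd (fit G) (fun a : fit G => ((l a : ℂˣ) : ℂ)) ^ e :=
    Real.rpow_le_rpow (by positivity) h4 he0.le
  rw [← Real.rpow_mul (Nat.cast_nonneg _), one_div_mul_cancel he0.ne', Real.rpow_one] at h5
  exact h5

end FI
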