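import Pool.Agent.H6.FC.Asm
import Pool.Agent.H6.FI.AsmF

/-!
# MP_7500ea_al, board cfp_modules: assembly of the final statements
-/

open scoped Classical ComplexConjugate

namespace FI

open AMc AMt

theorem ser_mono {P P' : ℕ → (S : Type) → [Group S] → Prop}
    (h : ∀ (k : ℕ) (S : Type) [Group S] [Finite S], P k S → P' k S)
    (G : Type) [Group G] (hG : Ser P G) : Ser P' G := by
  obtain ⟨n, N, h0, h1, h2, h3, h4⟩ := hG
  refine ⟨n, N, h0, h1, h2, h3, fun i hi => ?_⟩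
  obtain ⟨Q, _, f, a, b, c⟩ := h4 i hi
  refine ⟨Q, _, f, a, b, ?_⟩
  rcases c with c | ⟨k, S, _, _, d1, d2⟩
  · exact Or.inl c
  · exact Or.inr ⟨k, S, _, inferInstance, h k S d1, d2⟩

theorem pq_pp (ONE : T_ONE) (SGP : T_SGP) (SG5 : T_SG5) (e : ℝ) (he : e0 ≤ e) (h0 : 0 < e)
    (k : ℕ) (S : Type) [Group S] (h : PQ e k S) : PP e k S := by
  obtain ⟨p, hp, hk⟩ := h
  rcases hk with hk | hk
  · exact Or.inr ⟨hk, ONE e he p S hp⟩
  · rcases hp with ⟨rfl, hS⟩ | ⟨h1, h2, hS⟩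
    · refine Or.inl (SG5 e h0 ?_ S hS)
      have h3 : ((5 : ℕ) : ℝ) * (((5 : ℕ) : ℝ) ^ 2 - 1) = 120 := by norm_num
      have h4 : (((5 : ℕ) : ℝ) - 1) / 2 = 2 := by norm_num
      rw [h3, h4] at hk
      exact hk
    · exact Or.inl (SGP e h0 p h1 h2 hk S hS)

/-- the theorem on the Fitting subgroup for groups with a series -/
theorem ser_thm (SEQ : T_SEQ) (MAI : T_MAI) (FIN : T_FIN) (e : ℝ) (he : 91 / 25 ≤ e)
    (G : Type) [Group G] [Finite G] (hG : Ser (PP e) G) :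
    ∃ θ ∈ Irr (fit G), θ 1 = 1 ∧ ((fit G).index : ℝ) ≤ acd (fit G) θ ^ e :=
  FIN e he G (MAI e (by linarith) _ (SEQ _ (cla_PP e) G (sol G) hG))

/-- the average degree over an invariant character -/
theorem inv_thm (KKP : T_KKP) (BRG : T_BRG) (MAI : T_MAI) (e : ℝ) (he : 1 ≤ e)
    (G : Type) [Group G] [Finite G] (N : Subgroup G) (θ : N → ℂ) (hθ : θ ∈ Irr N)
    (hinv : ∀ g : G, ∀ a b : N, (b : G) = g * a * g⁻¹ → θ b = θ a)
    (Y : Type) [Group Y] [Finite Y] (q : G →* Y) (hY : Ser (PP e) Y)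
    (hq : Function.Surjective q) (hker : q.ker = N) :
    (θ 1).re * ((sol Y).index : ℝ) ^ (1 / e) ≤ acd N θ := by
  have := Fintype.ofFinite G
  have hN : N.Normal := by rw [← hker]; infer_instance
  obtain ⟨hS, hacd⟩ := BRG G N θ hθ
  have hv : ∀ a : N, ext0 N θ a = θ a := by
    intro a
    rw [ext0, dif_pos a.2]
  have hC := MAI e he Y hY G N ⊤ (nin_of_normal hN) (ext0 N θ) hS (by
    intro g _
    funext x
    simp only [cj]
    by_cases hx : x ∈ N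
    · have h1 := hinv g ⟨x, hx⟩ ⟨g * x * g⁻¹, hN.conj_mem x hx g⟩ rfl
      have h2 := hv ⟨x, hx⟩
      have h3 := hv ⟨g * x * g⁻¹, hN.conj_mem x hx g⟩
      simp only at h2 h3
      rw [h2, h3, h1]
    · rw [ext0, ext0, dif_neg hx, dif_neg]
      intro h1
      apply hx
      have h2 := hN.conj_mem _ h1 g⁻¹
      have h3 : g⁻¹ * (g * x * g⁻¹) * g⁻¹⁻¹ = x := by group
      rwa [h3] at h2) (q.comp (⊤ : Subgroup G).subtype) (by
    intro x hx
    rw [← hker] at hx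
    exact hx)
  have hr : (q.comp (⊤ : Subgroup G).subtype).range.index = 1 := by
    rw [Subgroup.index_eq_one, MonoidHom.range_eq_top]
    intro y
    obtain ⟨x, rfl⟩ := hq y
    exact ⟨⟨x, trivial⟩, rfl⟩
  rw [hr, Nat.cast_one, one_mul] at hC
  obtain ⟨-, k1, -⟩ := KKP G N ⊤ le_top _ hS
  have k2 : (0 : ℝ) < kk ⊤ (ext0 N θ) := by exact_mod_cast k1
  have h1 : (ext0 N θ 1).re = (θ 1).re := by
    have := hv 1
    rw [OneMemClass.coe_one] at this
    rw [this]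
  rw [h1, ← hacd] at hC
  have h2 : (θ 1).re * ((sol Y).index : ℝ) ^ (1 / e) * kk ⊤ (ext0 N θ) ≤
      acd N θ * kk ⊤ (ext0 N θ) := by
    calc _ = ((sol Y).index : ℝ) ^ (1 / e) * (θ 1).re * kk ⊤ (ext0 N θ) := by ring
      _ ≤ _ := hC
  exact le_of_mul_le_mul_right h2 k2

end FI
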