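import Pool.Agent.H6.FC.Targets
import Pool.Agent.H6.FI.AsmA2

/-!
# MP_7500ea_al, board cfp_modules: row DX3 (primitive solvable permutation groups)
-/

open scoped Classical ComplexConjugate

namespace Pool.Agent.H6.FC

open FI AMc AMt

theorem pf_DX3 (AFF : T_AFF) (FAC : T_FAC) (ND : T_ND) (hPW : ∀ n, PPW n) : T_DX3 := by
  intro R _ _ H hs hH
  have h1 : 2 ≤ H.index := by
    have h2 : H.index ≠ 1 := fun h => hH.1 (Subgroup.index_eq_one.1 h)
    have h3 : H.index ≠ 0 := Subgroup.index_ne_zero_of_finite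
    omega
  exact ND H.index H.normalCore.index h1 (FAC R H) (prm AFF (hPW H.index) R H hs hH le_rfl)

end Pool.Agent.H6.FC
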