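import Pool.Agent.H6.FIB.Defs

/-!
# MP_7500ea_al, third part: composition factors (definitions of the statements)
-/

open scoped Classical ComplexConjugate

namespace FI

/-- `(24 ^ (1/3) |Aut S|) ^ (1/e)` -/
noncomputable def gg (e : ℝ) (S : Type) [Group S] : ℝ :=
  ((24 : ℝ) ^ ((1 : ℝ) / 3) * Nat.card (MulAut S)) ^ (1 / e)

/-- the irreducible characters of `S` which extend to an irreducible character of `Aut S` -/
def Ext (S : Type) [Group S] : Set (S → ℂ) :=
  {ε | ε ∈ AMc.Irr S ∧ ∃ χ ∈ AMc.Irr (MulAut S), ∀ s, χ (MulAut.conj s) = ε s}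

/-- conditions on the simple group `S`, with `g = (24 ^ (1/3) |Aut S|) ^ (1/e)`: the index of a
proper subgroup is at least `g`; an irreducible character of a central extension of `S` has degree
at least `g` or is the product of a linear character and a character of `S` which extends to
`Aut S`; the geometric mean of the degrees of the characters of `S` which extend to `Aut S` is at
least `g` -/
structure SGood (e : ℝ) (S : Type) [Group S] : Prop where
  sim : IsSimpleGroup S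
  nab : ∃ a b : S, a * b ≠ b * a
  idx : ∀ T : Subgroup S, T ≠ ⊤ → gg e S ≤ T.index
  sqr : gg e S ^ 2 ≤ Nat.card S
  deg : ∀ (M : Type) [Group M] [Finite M] (π : M →* S), Function.Surjective π →
    π.ker ≤ Subgroup.center M → ∀ χ ∈ AMc.Irr M, gg e S ≤ (χ 1).re ∨
      ∃ μ : M →* ℂˣ, ∃ ε ∈ Ext S, ∀ m, χ m = (μ m : ℂ) * ε (π m)
  gmd : gg e S ^ (Ext S).ncard ≤ ∏ᶠ ε ∈ Ext S, (ε 1).re

/-- conditions on the simple group `S`, for simple chief factors: the index of a proper subgroup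
is at least `|Aut S| ^ (1/e)`, and for all groups `A` between `S` and `Aut S` the index of `S` is
one or a prime number and the conditions `Ch` on the characters hold -/
structure One (e : ℝ) (S : Type) [Group S] : Prop where
  sim : IsSimpleGroup S
  nab : ∃ a b : S, a * b ≠ b * a
  idx : ∀ T : Subgroup S, T ≠ ⊤ → (Nat.card (MulAut S) : ℝ) ^ (1 / e) ≤ T.index
  alm : ∀ (A : Type) [Group A] [Finite A] (S' : Subgroup A), S'.Normal →
    (∀ a : A, (∀ s ∈ S', a * s = s * a) → a = 1) → Nonempty (S' ≃* S) →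
    (S'.index = 1 ∨ S'.index.Prime) ∧ Ch e A S'

/-- `G` has a series of normal subgroups in which every factor is solvable or isomorphic to a
power `S ^ k` with `P k S` -/
def Ser (P : ℕ → (S : Type) → [Group S] → Prop) (G : Type) [Group G] : Prop :=
  ∃ (n : ℕ) (N : ℕ → Subgroup G), N 0 = ⊥ ∧ N n = ⊤ ∧ (∀ i, (N i).Normal) ∧
    (∀ i, N i ≤ N (i + 1)) ∧ ∀ i < n, ∃ (Q : Type) (_ : Group Q) (f : N (i + 1) →* Q),
      Function.Surjective f ∧ (∀ x, f x = 1 ↔ (x : G) ∈ N i) ∧
      (Group.IsSolvable Q ∨ ∃ (k : ℕ) (S : Type) (_ : Group S) (_ : Finite S),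
        P k S ∧ Nonempty (Q ≃* (Fin k → S)))

/-- the condition on the factors `S ^ k` -/
def PP (e : ℝ) (k : ℕ) (S : Type) [Group S] : Prop := SGood e S ∨ (k ≤ 1 ∧ One e S)

/-- `PSL(2, p)` -/
abbrev PL (p : ℕ) : Type := Matrix.ProjectiveSpecialLinearGroup (Fin 2) (ZMod p)

/-- the condition on the factors `S ^ k`: `S` is isomorphic to `PSL(2, p)`, `p ≥ 7` a prime number,
or to `A₅`, then `p = 5`; and `k ≤ 1` or `24 ^ (1/3) p (p ^ 2 - 1) ≤ ((p - 1) / 2) ^ e` -/
def PQ (e : ℝ) (k : ℕ) (S : Type) [Group S] : Prop :=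
  ∃ p : ℕ, ((p = 5 ∧ Nonempty (S ≃* alternatingGroup (Fin 5))) ∨
      (p.Prime ∧ 7 ≤ p ∧ Nonempty (S ≃* PL p))) ∧
    (k ≤ 1 ∨ (24 : ℝ) ^ ((1 : ℝ) / 3) * (p * ((p : ℝ) ^ 2 - 1)) ≤ (((p : ℝ) - 1) / 2) ^ e)

end FI
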