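import Pool.Agent.H6.FC.Defs
import Pool.Agent.H6.FIB.TargetsG
import Pool.Agent.H6.FI.Lib

/-!
# MP_7500ea_al, board fc_modules: targets (powers of simple groups)
-/

open scoped Classical ComplexConjugate

namespace FI

open AMc AMt

/-! ## The claim -/

/-- the claim for the group `Y`: `Γ` is an ambient group, `θ` is a `U`-invariant irreducible
character of the normal subgroup `K` of `U`, and `h : U → Y` is trivial on `K` -/
def CA (e : ℝ) (Y : Type) [Group Y] : Prop :=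
  ∀ (Γ : Type) [Group Γ] [Fintype Γ] (K U : Subgroup Γ), NIn K U → ∀ θ ∈ IrrS K,
    (∀ u ∈ U, cj u θ = θ) → ∀ h : U →* Y, (∀ x : U, (x : Γ) ∈ K → h x = 1) →
    ((sol Y).index : ℝ) ^ (1 / e) * (θ 1).re * kk U θ ≤ (h.range.index : ℝ) * dd U θ

/-- the same for homomorphisms with kernel `K` -/
def CAI (e : ℝ) (Y : Type) [Group Y] : Prop :=
  ∀ (Γ : Type) [Group Γ] [Fintype Γ] (K U : Subgroup Γ), NIn K U → ∀ θ ∈ IrrS K,
    (∀ u ∈ U, cj u θ = θ) → ∀ h : U →* Y, (∀ x : U, h x = 1 ↔ (x : Γ) ∈ K) →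
    ((sol Y).index : ℝ) ^ (1 / e) * (θ 1).re * kk U θ ≤ (h.range.index : ℝ) * dd U θ

/-- `Γ / Z` embeds in `Y`, and `Z` is central -/
structure CEx {Γ Y : Type} [Group Γ] [Group Y] (Z : Subgroup Γ) (h : Γ →* Y) : Prop where
  ker : ∀ x, h x = 1 ↔ x ∈ Z
  cen : ∀ z ∈ Z, ∀ g, z * g = g * z

/-- the inequality for `h : Γ → Y` with kernel `Z` -/
def CEh (e : ℝ) {Γ Y : Type} [Group Γ] [Fintype Γ] [Group Y] (Z : Subgroup Γ) (h : Γ →* Y) :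
    Prop :=
  ∀ ν ∈ IrrS Z, (Nat.card Y : ℝ) ^ (1 / e) * kk ⊤ ν ≤ (h.range.index : ℝ) * dd ⊤ ν

/-- the inequality for central extensions of subgroups of `Y` -/
def CEN (e : ℝ) (Y : Type) [Group Y] : Prop :=
  ∀ (Γ : Type) [Group Γ] [Fintype Γ] (Z : Subgroup Γ) (h : Γ →* Y), CEx Z h → CEh e Z h

/-- KRN: the kernel of `h` -/
def T_KRN : Prop := ∀ (e : ℝ) (Y : Type) [Group Y] [Finite Y], CAI e Y → CA e Y

/-- SLQ: the solvable radical of `Y` -/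
def T_SLQ : Prop := ∀ (e : ℝ) (Y : Type) [Group Y] [Finite Y], CA e (Y ⧸ sol Y) → CA e Y

/-- TRD: reduction to central extensions -/
def T_TRD : Prop := ∀ (e : ℝ) (Y : Type) [Group Y] [Finite Y], sol Y = ⊥ → CEN e Y → CAI e Y

/-- CIS: isomorphic groups -/
def T_CIS : Prop := ∀ (e : ℝ) (Y Y' : Type) [Group Y] [Finite Y] [Group Y'] [Finite Y'],
  Nonempty (Y ≃* Y') → CA e Y → CA e Y'

/-- DLB: characters of a normal subgroup `N` of `Γ` which `h` maps into `L` -/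
def T_DLB : Prop := ∀ (e : ℝ) (Y : Type) [Group Y] [Finite Y] (L : Subgroup Y) [L.Normal],
  CA e (Y ⧸ L) → ∀ (Γ : Type) [Group Γ] [Fintype Γ] (h : Γ →* Y) (N : Subgroup Γ),
  N.Normal → (∀ n ∈ N, h n ∈ L) → ∀ ψ ∈ IrrS N,
  ((sol (Y ⧸ L)).index : ℝ) ^ (1 / e) * (ψ 1).re * kk ⊤ ψ ≤
    ((L ⊔ h.range).index : ℝ) * dd ⊤ ψ

/-! ## Classes of groups -/

/-- a non-abelian simple group -/
structure NAS (S : Type) [Group S] : Prop where
  sim : IsSimpleGroup S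
  nab : ∃ a b : S, a * b ≠ b * a

/-- properties of the conditions on the factors -/
structure Cla (P : ℕ → (S : Type) → [Group S] → Prop) : Prop where
  mon : ∀ (k k' : ℕ) (S : Type) [Group S], k' ≤ k → P k S → P k' S
  nas : ∀ (k : ℕ) (S : Type) [Group S], P k S → NAS S

/-- NSK: the normal subgroups of `S ^ k` -/
def T_NSK : Prop := ∀ (S : Type) [Group S] [Finite S], NAS S → ∀ (ι : Type) [Fintype ι],
  ∀ H : Subgroup (ι → S), H.Normal → ∃ I : Set ι, ∀ x, x ∈ H ↔ ∀ i, i ∉ I → x i = 1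

/-- NSQ: normal subgroups and factor groups of `S ^ k` -/
def T_NSQ : Prop := ∀ (S : Type) [Group S] [Finite S], NAS S → ∀ (k : ℕ) (Q : Type) [Group Q],
  Nonempty (Q ≃* (Fin k → S)) →
  (∀ (N : Type) [Group N] (f : N →* Q), Function.Injective f → f.range.Normal →
    ∃ k' : ℕ, k' ≤ k ∧ Nonempty (N ≃* (Fin k' → S))) ∧
  ∀ (R : Type) [Group R] (f : Q →* R), Function.Surjective f →
    ∃ k' : ℕ, k' ≤ k ∧ Nonempty (R ≃* (Fin k' → S))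

/-- SEQ: factor groups -/
def T_SEQ : Prop := ∀ (P : ℕ → (S : Type) → [Group S] → Prop), Cla P →
  ∀ (G : Type) [Group G] [Finite G] (N : Subgroup G) [N.Normal], Ser P G → Ser P (G ⧸ N)

/-- SEN: normal subgroups -/
def T_SEN : Prop := ∀ (P : ℕ → (S : Type) → [Group S] → Prop), Cla P →
  ∀ (G : Type) [Group G] [Finite G] (H : Subgroup G), H.Normal → Ser P G → Ser P H

/-- MNL: a normal subgroup `L ≅ S ^ k` -/
def T_MNL : Prop := ∀ (P : ℕ → (S : Type) → [Group S] → Prop),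
  ∀ (Y : Type) [Group Y] [Finite Y] [Nontrivial Y], sol Y = ⊥ → Ser P Y →
  ∃ (L : Subgroup Y) (_ : L.Normal) (k : ℕ) (S : Type) (_ : Group S) (_ : Finite S),
    1 ≤ k ∧ P k S ∧ Nonempty (L ≃* (Fin k → S))

/-- PRM: the automorphisms of `S ^ k` -/
def T_PRM : Prop := ∀ (S : Type) [Group S] [Finite S], NAS S → ∀ (ι : Type) [Fintype ι]
  (α : MulAut (ι → S)), ∃ (σ : Equiv.Perm ι) (a : ι → MulAut S),
    (∀ x i, α x (σ i) = a i (x i)) ∧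
    ∀ (σ' : Equiv.Perm ι) (a' : ι → MulAut S), (∀ x i, α x (σ' i) = a' i (x i)) →
      σ' = σ ∧ a' = a

/-- ACT: the action of `Y` on the factors of the normal subgroup `L ≅ S ^ k` -/
def T_ACT : Prop := ∀ (S Y : Type) [Group S] [Finite S] [Group Y] [Finite Y], NAS S →
  ∀ (L : Subgroup Y), L.Normal → ∀ (k : ℕ) (φ : L ≃* (Fin k → S)),
  ∃ (σ : Y →* Equiv.Perm (Fin k)) (a : Y → Fin k → MulAut S),
    (∀ (y : Y) (l l' : L), (l' : Y) = y * l * y⁻¹ → ∀ i, φ l' (σ y i) = a y i (φ l i)) ∧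
    (∀ g h i, a (g * h) i = a g (σ h i) * a h i) ∧
    (∀ l : L, σ l = 1 ∧ ∀ i, a l i = MulAut.conj (φ l i)) ∧
    ∀ y : Y, σ y = 1 → (∀ i, a y i = 1) → ∀ l ∈ L, y * l = l * y

/-! ## Orders and indices -/

/-- DX3: primitive solvable permutation groups (closed) -/
def T_DX3 : Prop := ∀ (R : Type) [Group R] [Finite R] (H : Subgroup R), Group.IsSolvable R →
  IsCoatom H → (H.normalCore.index : ℝ) ≤ c0 ^ (H.index - 1)

/-- DX2: transitive solvable permutation groups -/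
def T_DX2 : Prop := ∀ (R : Type) [Group R] [Finite R] (H : Subgroup R), Group.IsSolvable R →
  (H.normalCore.index : ℝ) ≤ c0 ^ (H.index - 1)

/-- DIX: the theorem of Dixon -/
def T_DIX : Prop := ∀ (R X : Type) [Group R] [Finite R] [Finite X] [Nonempty X]
  (f : R →* Equiv.Perm X), Group.IsSolvable R → (f.ker.index : ℝ) ≤ c0 ^ (Nat.card X - 1)

/-- SBD: the order of `Y` -/
def T_SBD : Prop := ∀ (Y : Type) [Group Y] [Finite Y], sol Y = ⊥ → ∀ (L : Subgroup Y) [L.Normal]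
  (S : Type) [Group S] [Finite S], NAS S → ∀ k : ℕ, 1 ≤ k → Nonempty (L ≃* (Fin k → S)) →
  (Nat.card Y : ℝ) ≤
    c0 ^ (k - 1) * (Nat.card (MulAut S) : ℝ) ^ k * ((sol (Y ⧸ L)).index : ℝ)

/-- IDX: the index of a subgroup of `S ^ k` -/
def T_IDX : Prop := ∀ (S : Type) [Group S] [Finite S], NAS S → ∀ g : ℝ, 1 ≤ g →
  (∀ T : Subgroup S, T ≠ ⊤ → g ≤ T.index) → g ^ 2 ≤ Nat.card S →
  ∀ (ι : Type) [Fintype ι] [DecidableEq ι] (D : Subgroup (ι → S)),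
    g ^ Nat.card {i : ι // ¬ ∀ s : S, Pi.mulSingle i s ∈ D} ≤ D.index

/-! ## Central extensions of `S ^ J` -/

section

variable {Γ S J : Type} [Group Γ] [Group S]

/-- `N / Z ≅ S ^ J`, `Z` central; `Γ` acts on the factors by permutations and automorphisms -/
structure CPd (Z N : Subgroup Γ) (π : N →* (J → S)) (σ : Γ →* Equiv.Perm J)
    (a : Γ → J → MulAut S) : Prop where
  cen : ∀ z ∈ Z, ∀ g, z * g = g * z
  nor : N.Normal
  le : Z ≤ N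
  sur : Function.Surjective π
  ker : ∀ n : N, π n = 1 ↔ (n : Γ) ∈ Z
  act : ∀ (g : Γ) (n m : N), (m : Γ) = g * n * g⁻¹ → ∀ i, π m (σ g i) = a g i (π n i)
  coc : ∀ g h i, a (g * h) i = a g (σ h i) * a h i

/-- the preimage of the `i`-th factor -/
def MM (N : Subgroup Γ) (π : N →* (J → S)) (i : J) : Subgroup Γ where
  carrier := {g | ∃ h : g ∈ N, ∀ j, j ≠ i → π ⟨g, h⟩ j = 1}
  mul_mem' := by
    rintro a b ⟨ha, ha'⟩ ⟨hb, hb'⟩
    refine ⟨N.mul_mem ha hb, fun j hj => ?_⟩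
    have h : (⟨a * b, N.mul_mem ha hb⟩ : N) = ⟨a, ha⟩ * ⟨b, hb⟩ := rfl
    rw [h, map_mul, Pi.mul_apply, ha' j hj, hb' j hj, mul_one]
  one_mem' := by
    refine ⟨N.one_mem, fun j _ => ?_⟩
    have h : (⟨1, N.one_mem⟩ : N) = 1 := rfl
    rw [h, map_one, Pi.one_apply]
  inv_mem' := by
    rintro a ⟨ha, ha'⟩
    refine ⟨N.inv_mem ha, fun j hj => ?_⟩
    have h : (⟨a⁻¹, N.inv_mem ha⟩ : N) = ⟨a, ha⟩⁻¹ := rfl
    rw [h, map_inv, Pi.inv_apply, ha' j hj, inv_one]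

/-- the projection of `N` to the `i`-th factor -/
noncomputable def pj (N : Subgroup Γ) (π : N →* (J → S)) (i : J) : Γ → S :=
  fun g => if h : g ∈ N then π ⟨g, h⟩ i else 1

/-- MMF: basic facts on the preimages of the factors -/
structure MMf (Z N : Subgroup Γ) [Fintype J] (π : N →* (J → S)) (σ : Γ →* Equiv.Perm J)
    (a : Γ → J → MulAut S) : Prop where
  zm : ∀ i, Z ≤ MM N π i
  mn : ∀ i, MM N π i ≤ N
  mul : ∀ x ∈ N, ∀ y ∈ N, ∀ i, pj N π i (x * y) = pj N π i x * pj N π i y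
  sur : ∀ i s, ∃ x ∈ MM N π i, pj N π i x = s
  ker : ∀ i, ∀ x ∈ MM N π i, pj N π i x = 1 ↔ x ∈ Z
  prf : ∀ i, MM N π i ≤ Z ⊔ ⁅MM N π i, MM N π i⁆
  cnj : ∀ g i, ∀ x ∈ MM N π i, g * x * g⁻¹ ∈ MM N π (σ g i) ∧
    pj N π (σ g i) (g * x * g⁻¹) = a g i (pj N π i x)
  com : Pairwise fun i j => ∀ x y : Γ, x ∈ MM N π i → y ∈ MM N π j → Commute x y
  gen : ∀ (hc : Pairwise fun i j => ∀ x y : Γ, x ∈ MM N π i → y ∈ MM N π j → Commute x y),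
    ∀ n ∈ N, ∃ z ∈ Z, ∃ m : (∀ i, MM N π i), n = z * Subgroup.noncommPiCoprod hc m
  prj : ∀ (hc : Pairwise fun i j => ∀ x y : Γ, x ∈ MM N π i → y ∈ MM N π j → Commute x y),
    ∀ z ∈ Z, ∀ m : (∀ i, MM N π i), z * Subgroup.noncommPiCoprod hc m ∈ N ∧
      ∀ i, pj N π i (z * Subgroup.noncommPiCoprod hc m) = pj N π i (m i)

/-- the families of characters of the preimages of the factors -/
def Fam [Fintype Γ] (N : Subgroup Γ) (π : N →* (J → S)) (ν : Γ → ℂ) : Set (J → Γ → ℂ) :=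
  {c | ∀ i, c i ∈ Ab (MM N π i) ν}

/-- `F` is the bijection from the families to the characters of `N` over `ν`, the product -/
structure CPs [Fintype Γ] [Fintype J] (Z N : Subgroup Γ) (π : N →* (J → S)) (ν : Γ → ℂ)
    (hc : Pairwise fun i j => ∀ x y : Γ, x ∈ MM N π i → y ∈ MM N π j → Commute x y)
    (F : (J → Γ → ℂ) → Γ → ℂ) : Prop where
  bij : Set.BijOn F (Fam N π ν) (Ab N ν)
  val : ∀ c ∈ Fam N π ν, ∀ z ∈ Z, ∀ m : (∀ i, MM N π i),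
    F c (z * Subgroup.noncommPiCoprod hc m) = ν z * ∏ i, c i (m i)

/-- `x = μ ε`, with `μ` a linear character of `M` and `ε` a character of `S` which extends to
`Aut S` -/
structure EC (M : Subgroup Γ) (p : Γ → S) (μ : Γ → ℂ) (ε : S → ℂ) (x : Γ → ℂ) : Prop where
  mem : μ ∈ IrrS M
  one : μ 1 = 1
  ext : ε ∈ Ext S
  eq : x = fun g => μ g * ε (p g)

/-- the shift -/
noncomputable def shf (M : Subgroup Γ) (p : Γ → S) (s : (S → ℂ) → (S → ℂ)) (x : Γ → ℂ) :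
    Γ → ℂ :=
  if h : ∃ w : (Γ → ℂ) × (S → ℂ), EC M p w.1 w.2 x then
    fun g => h.choose.1 g * s h.choose.2 (p g) else x

end

/-- MMF: basic facts on the preimages of the factors -/
def T_MMF : Prop := ∀ (Γ S J : Type) [Group Γ] [Finite Γ] [Group S] [Finite S] [Fintype J],
  NAS S → ∀ (Z N : Subgroup Γ) (π : N →* (J → S)) (σ : Γ →* Equiv.Perm J)
  (a : Γ → J → MulAut S), CPd Z N π σ a → MMf Z N π σ a

/-- CP2: central products of two subgroups -/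
def T_CP2 : Prop := ∀ (Γ : Type) [Group Γ] [Fintype Γ] (Z M C : Subgroup Γ), M ⊓ C = Z →
  (∀ m ∈ M, ∀ c ∈ C, m * c = c * m) → ∀ ν ∈ IrrS Z,
  (∀ φ ∈ Ab M ν, ∀ ψ ∈ Ab C ν, ∃ χ ∈ Ab (M ⊔ C) ν, ∀ m ∈ M, ∀ c ∈ C,
    χ (m * c) = φ m * ψ c) ∧
  (∀ χ ∈ Ab (M ⊔ C) ν, ∃ φ ∈ Ab M ν, ∃ ψ ∈ Ab C ν, ∀ m ∈ M, ∀ c ∈ C,
    χ (m * c) = φ m * ψ c) ∧
  ∀ φ ∈ Ab M ν, ∀ φ' ∈ Ab M ν, ∀ ψ ∈ Ab C ν, ∀ ψ' ∈ Ab C ν,
    (∀ m ∈ M, ∀ c ∈ C, φ m * ψ c = φ' m * ψ' c) → φ = φ' ∧ ψ = ψ'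

/-- CPM: central products -/
def T_CPM : Prop := ∀ (Γ S J : Type) [Group Γ] [Fintype Γ] [Group S] [Finite S] [Fintype J],
  NAS S → ∀ (Z N : Subgroup Γ) (π : N →* (J → S)) (σ : Γ →* Equiv.Perm J)
  (a : Γ → J → MulAut S), CPd Z N π σ a → MMf Z N π σ a → ∀ ν ∈ IrrS Z,
  ∀ hc : (Pairwise fun i j => ∀ x y : Γ, x ∈ MM N π i → y ∈ MM N π j → Commute x y),
  ∃ F : (J → Γ → ℂ) → Γ → ℂ, CPs Z N π ν hc F

/-- STC: conjugation -/
def T_STC : Prop := ∀ (Γ S J : Type) [Group Γ] [Fintype Γ] [Group S] [Finite S] [Fintype J],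
  NAS S → ∀ (Z N : Subgroup Γ) (π : N →* (J → S)) (σ : Γ →* Equiv.Perm J)
  (a : Γ → J → MulAut S), CPd Z N π σ a → MMf Z N π σ a → ∀ ν ∈ IrrS Z,
  ∀ hc : (Pairwise fun i j => ∀ x y : Γ, x ∈ MM N π i → y ∈ MM N π j → Commute x y),
  ∀ F : (J → Γ → ℂ) → Γ → ℂ, CPs Z N π ν hc F → ∀ c ∈ Fam N π ν, ∀ u : Γ,
  (fun i => cj u (c (σ u i))) ∈ Fam N π ν ∧ cj u (F c) = F (fun i => cj u (c (σ u i)))

/-- UNQ: uniqueness of `μ` and `ε` -/
def T_UNQ : Prop := ∀ (Γ S : Type) [Group Γ] [Fintype Γ] [Group S] [Finite S]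
  (Z M : Subgroup Γ) (p : Γ → S), Z ≤ M → M ≤ Z ⊔ ⁅M, M⁆ → (∀ z ∈ Z, p z = 1) →
  (∀ x ∈ M, ∀ y ∈ M, p (x * y) = p x * p y) → (∀ s, ∃ x ∈ M, p x = s) →
  ∀ μ ∈ IrrS M, ∀ μ' ∈ IrrS M, μ 1 = 1 → μ' 1 = 1 → ∀ ε ∈ Irr S, ∀ ε' ∈ Irr S,
  (∀ g ∈ M, μ g * ε (p g) = μ' g * ε' (p g)) → μ = μ' ∧ ε = ε'

/-- EIR: the product `μ ε` is irreducible -/
def T_EIR : Prop := ∀ (Γ S : Type) [Group Γ] [Fintype Γ] [Group S] [Finite S]
  (Z M : Subgroup Γ) (p : Γ → S), Z ≤ M → (∀ z ∈ Z, ∀ g, z * g = g * z) →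
  (∀ z ∈ Z, p z = 1) → (∀ x ∈ M, ∀ y ∈ M, p (x * y) = p x * p y) → (∀ s, ∃ x ∈ M, p x = s) →
  ∀ ν ∈ IrrS Z, ∀ μ ∈ IrrS M, μ 1 = 1 → (∀ z ∈ Z, μ z = ν z) → ∀ ε ∈ Irr S,
  (fun g => μ g * ε (p g)) ∈ Ab M ν

/-- EXI0: the extendible characters are invariant, and the trivial character is extendible -/
def T_EX0 : Prop := ∀ (S : Type) [Group S] [Finite S], NAS S →
  (∀ ε ∈ Ext S, ∀ α : MulAut S, ∀ s, ε (α s) = ε s) ∧ (fun _ => (1 : ℂ)) ∈ Ext S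

/-- SHM: the shift -/
def T_SHM : Prop := ∀ (Γ S J : Type) [Group Γ] [Fintype Γ] [Group S] [Finite S] [Fintype J],
  NAS S → ∀ (Z N : Subgroup Γ) (π : N →* (J → S)) (σ : Γ →* Equiv.Perm J)
  (a : Γ → J → MulAut S), CPd Z N π σ a → MMf Z N π σ a → ∀ ν ∈ IrrS Z,
  ∀ s : (S → ℂ) → (S → ℂ), Set.BijOn s (Ext S) (Ext S) →
  (∀ i μ ε x, EC (MM N π i) (pj N π i) μ ε x →
    shf (MM N π i) (pj N π i) s x = fun g => μ g * s ε (pj N π i g)) ∧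
  (∀ i, Set.BijOn (shf (MM N π i) (pj N π i) s) (Ab (MM N π i) ν) (Ab (MM N π i) ν)) ∧
  ∀ (u : Γ) (i : J), ∀ x ∈ Ab (MM N π (σ u i)) ν, cj u x ∈ Ab (MM N π i) ν ∧
    cj u (shf (MM N π (σ u i)) (pj N π (σ u i)) s x) = shf (MM N π i) (pj N π i) s (cj u x) ∧
    ∀ μ ε, EC (MM N π (σ u i)) (pj N π (σ u i)) μ ε x →
      EC (MM N π i) (pj N π i) (cj u μ) ε (cj u x)

/-- TE1: the trace of a tensor product with permutations of the factors -/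
def T_TE1 : Prop := ∀ (U E S : Type) [Group U] [Finite U] [Fintype E] [Group S] [Finite S]
  (σ : U →* Equiv.Perm E) (a : U → E → MulAut S), (∀ g h i, a (g * h) i = a g (σ h i) * a h i) →
  ∀ χ ∈ Irr (MulAut S), ∃ τ : U → ℂ, IsChar U τ ∧
    ∀ u : U, σ u = 1 → τ u = ∏ i, χ (a u i)

/-- TEN: a product of extendible characters extends -/
def T_TEN : Prop := ∀ (Γ S J : Type) [Group Γ] [Fintype Γ] [Group S] [Finite S] [Fintype J],
  NAS S → ∀ (Z N : Subgroup Γ) (π : N →* (J → S)) (σ : Γ →* Equiv.Perm J)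
  (a : Γ → J → MulAut S), CPd Z N π σ a → ∀ (U : Subgroup Γ), N ≤ U →
  ∀ ε : J → S → ℂ, (∀ i, ε i ∈ Ext S) → (∀ u ∈ U, ∀ i, ε (σ u i) = ε i) →
  ∃ τ : Γ → ℂ, IsChar U (fun u => τ u) ∧ ∀ n : N, τ n = ∏ i, ε i (π n i)

/-- GIG: multiplication by an extendible character -/
def T_GIG : Prop := ∀ (Γ : Type) [Group Γ] [Fintype Γ] (M U : Subgroup Γ), NIn M U →
  ∀ ψ ∈ IrrS M, (∀ u ∈ U, cj u ψ = ψ) → ∀ τ : Γ → ℂ, IsChar U (fun u => τ u) →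
  (fun g => ψ g * τ g) ∈ IrrS M → kk U (fun g => ψ g * τ g) = kk U ψ

/-- KKH: the shift preserves stabilisers and numbers of characters -/
def T_KKH : Prop := ∀ (Γ S J : Type) [Group Γ] [Fintype Γ] [Group S] [Finite S] [Fintype J],
  NAS S → ∀ (Z N : Subgroup Γ) (π : N →* (J → S)) (σ : Γ →* Equiv.Perm J)
  (a : Γ → J → MulAut S), CPd Z N π σ a → MMf Z N π σ a → ∀ ν ∈ IrrS Z,
  ∀ hc : (Pairwise fun i j => ∀ x y : Γ, x ∈ MM N π i → y ∈ MM N π j → Commute x y),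
  ∀ F : (J → Γ → ℂ) → Γ → ℂ, CPs Z N π ν hc F →
  ∀ s : (S → ℂ) → (S → ℂ), Set.BijOn s (Ext S) (Ext S) → ∀ c ∈ Fam N π ν,
  stab ⊤ (F (fun i => shf (MM N π i) (pj N π i) s (c i))) = stab ⊤ (F c) ∧
  kk ⊤ (F (fun i => shf (MM N π i) (pj N π i) s (c i))) = kk ⊤ (F c)

/-- AGM: the inequality of the arithmetic and the geometric mean -/
def T_AGM : Prop := ∀ (J α : Type) [Fintype J] (A : J → Set α) (h : J → α → α) (d : J → α → ℝ)
  (n : ℕ) (g : ℝ) (w : (J → α) → ℝ), 1 ≤ n → 0 ≤ g → (∀ i, (A i).Finite) →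
  (∀ i, Set.BijOn (h i) (A i) (A i)) → (∀ i, ∀ x ∈ A i, 0 < d i x) →
  (∀ i, ∀ x ∈ A i, g ^ n ≤ ∏ j ∈ Finset.range n, d i ((h i)^[j] x)) →
  (∀ c : J → α, (∀ i, c i ∈ A i) → 0 ≤ w c ∧ w (fun i => h i (c i)) = w c) →
  g ^ Fintype.card J * ∑ᶠ c ∈ {c : J → α | ∀ i, c i ∈ A i}, w c ≤
    ∑ᶠ c ∈ {c : J → α | ∀ i, c i ∈ A i}, w c * ∏ i, d i (c i)

/-- CYC: a cyclic permutation of a finite set -/
def T_CYC : Prop := ∀ (α : Type) (X : Set α), X.Finite → X.Nonempty →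
  ∃ s : α → α, Set.BijOn s X X ∧ ∀ x ∈ X, ∀ f : α → ℝ,
    ∏ j ∈ Finset.range X.ncard, f (s^[j] x) = ∏ᶠ y ∈ X, f y

/-- SYM: the average degree of the characters of `N` -/
def T_SYM : Prop := ∀ (e : ℝ) (Γ S J : Type) [Group Γ] [Fintype Γ] [Group S] [Finite S]
  [Fintype J], SGood e S → ∀ (Z N : Subgroup Γ) (π : N →* (J → S)) (σ : Γ →* Equiv.Perm J)
  (a : Γ → J → MulAut S), CPd Z N π σ a → ∀ ν ∈ IrrS Z,
  gg e S ^ Nat.card J * ∑ᶠ ψ ∈ Ab N ν, (kk ⊤ ψ : ℝ) / (stab ⊤ ψ).index ≤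
    ∑ᶠ ψ ∈ Ab N ν, (ψ 1).re * ((kk ⊤ ψ : ℝ) / (stab ⊤ ψ).index)

/-- CPF: the central extension attached to `h : Γ → Y` and `L ≅ S ^ k` -/
def T_CPF : Prop := ∀ (Y Γ S : Type) [Group Y] [Finite Y] [Group Γ] [Finite Γ] [Group S]
  [Finite S], NAS S → ∀ (Z : Subgroup Γ) (h : Γ →* Y), CEx Z h → ∀ (L : Subgroup Y), L.Normal →
  ∀ (k : ℕ) (φ : L ≃* (Fin k → S)),
  ∃ (J : Type) (_ : Fintype J) (N : Subgroup Γ) (π : N →* (J → S))
    (σ : Γ →* Equiv.Perm J) (a : Γ → J → MulAut S), CPd Z N π σ a ∧ (∀ n ∈ N, h n ∈ L) ∧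
    Nat.card J = Nat.card {i : Fin k // ∀ s : S,
      ((φ.symm (Pi.mulSingle i s) : L) : Y) ∈ h.range}

/-- ST2: the step for the factors `S ^ k` -/
def T_ST2 : Prop := ∀ (e : ℝ), 1 ≤ e → ∀ (Y : Type) [Group Y] [Finite Y], sol Y = ⊥ →
  ∀ (L : Subgroup Y) [L.Normal] (k : ℕ) (S : Type) [Group S] [Finite S], 1 ≤ k → SGood e S →
  Nonempty (L ≃* (Fin k → S)) → CA e (Y ⧸ L) → CEN e Y

/-! ## Simple chief factors -/

/-- the data for a simple normal subgroup `L`: the action `γ` on `L` -/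
structure S1d (e : ℝ) (Y A : Type) [Group Y] [Group A] (L : Subgroup Y) (S' : Subgroup A)
    (γ : Y →* A) : Prop where
  sur : Function.Surjective γ
  inf : L ⊓ γ.ker = ⊥
  map : L.map γ = S'
  al : Al A S'
  ch : Ch e A S'
  al' : Al S' (⊤ : Subgroup S')
  ch' : Ch e S' (⊤ : Subgroup S')

/-- S1A: existence of the data -/
def T_S1A : Prop := ∀ (e : ℝ) (Y S : Type) [Group Y] [Finite Y] [Group S] [Finite S],
  One e S → ∀ (L : Subgroup Y), L.Normal → Nonempty (L ≃* S) →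
  ∃ (A : Type) (_ : Group A) (_ : Finite A) (S' : Subgroup A) (γ : Y →* A), S1d e Y A L S' γ

/-- S1E: the case `L ≤ h(Γ)`, `Γ` induces inner automorphisms on `L` -/
def T_S1E : Prop := ∀ (e : ℝ), 1 ≤ e → ∀ (Y A : Type) [Group Y] [Finite Y] [Group A]
  [Finite A], sol Y = ⊥ → ∀ (L : Subgroup Y) [L.Normal] (S' : Subgroup A) (γ : Y →* A),
  S1d e Y A L S' γ → CA e γ.ker → ∀ (Γ : Type) [Group Γ] [Fintype Γ] (Z : Subgroup Γ)
  (h : Γ →* Y), CEx Z h → L ≤ h.range → (γ.comp h).range = S' → CEh e Z h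

/-- S1F: the case `L ≤ h(Γ)`, `Γ` induces `A ≠ S'` on `L` -/
def T_S1F : Prop := ∀ (e : ℝ), 1 ≤ e → ∀ (Y A : Type) [Group Y] [Finite Y] [Group A]
  [Finite A], sol Y = ⊥ → ∀ (L : Subgroup Y) [L.Normal] (S' : Subgroup A) (γ : Y →* A),
  S1d e Y A L S' γ → S'.index.Prime → CA e γ.ker → CA e (Y ⧸ L) →
  ∀ (Γ : Type) [Group Γ] [Fintype Γ] (Z : Subgroup Γ)
  (h : Γ →* Y), CEx Z h → L ≤ h.range → Function.Surjective (γ.comp h) → CEh e Z h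

/-- S1C: the case that `L` is not contained in `h(Γ)` -/
def T_S1C : Prop := ∀ (e : ℝ), 1 ≤ e → ∀ (Y S : Type) [Group Y] [Finite Y] [Group S]
  [Finite S], sol Y = ⊥ → ∀ (L : Subgroup Y) [L.Normal], One e S → Nonempty (L ≃* S) →
  CA e (Y ⧸ L) → ∀ (Γ : Type) [Group Γ] [Fintype Γ] (Z : Subgroup Γ) (h : Γ →* Y), CEx Z h →
  ¬ L ≤ h.range → CEh e Z h

/-! ## The groups `PSL(2, p)` -/

/-- PSI: the two definitions of `PSL(2, q)` -/
def T_PSI : Prop := ∀ q : ℕ, q.Prime → ∃ ψ : PL q ≃* PS q,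
  ∀ A : Matrix.SpecialLinearGroup (Fin 2) (ZMod q),
    ((ψ (QuotientGroup.mk A) : PS q) : PG q) =
      QuotientGroup.mk (Matrix.SpecialLinearGroup.toGL A)

/-- PAU: the automorphisms of `PSL(2, q)` -/
def T_PAU : Prop := ∀ q : ℕ, q.Prime → 7 ≤ q → ∀ α : MulAut (PS q), ∃ g : PG q,
  ∀ s : PS q, ((α s : PS q) : PG q) = g * s * g⁻¹

/-- PAM: the groups between `PSL(2, q)` and its automorphism group -/
def T_PAM : Prop := ∀ q : ℕ, q.Prime → 7 ≤ q → ∀ (A : Type) [Group A] [Finite A]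
  (S' : Subgroup A), S'.Normal → (∀ a : A, (∀ s ∈ S', a * s = s * a) → a = 1) →
  Nonempty (S' ≃* PL q) → ∃ f : A →* PG q, Function.Injective f ∧ PS q ≤ f.range ∧
    S' = (PS q).comap f

/-- PA5: the groups between `A₅` and its automorphism group -/
def T_PA5 : Prop := ∀ (A : Type) [Group A] [Finite A] (S' : Subgroup A), S'.Normal →
  (∀ a : A, (∀ s ∈ S', a * s = s * a) → a = 1) → Nonempty (S' ≃* A5) →
  ∃ f : A →* Equiv.Perm (Fin 5), Function.Injective f ∧ A5 ≤ f.range ∧ S' = A5.comap f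

/-- CHM: the conditions on the characters for larger exponents -/
def T_CHM : Prop := ∀ (e e' : ℝ), 0 < e → e ≤ e' → ∀ (A : Type) [Group A] [Finite A]
  (S : Subgroup A), Ch e A S → Ch e' A S

/-- the simple groups `A₅` (`p = 5`) and `PSL(2, p)`, `p ≥ 7` -/
def Isp (p : ℕ) (S : Type) [Group S] : Prop :=
  (p = 5 ∧ Nonempty (S ≃* alternatingGroup (Fin 5))) ∨
    (p.Prime ∧ 7 ≤ p ∧ Nonempty (S ≃* PL p))

/-- SPB: basic facts -/
def T_SPB : Prop := ∀ (p : ℕ) (S : Type) [Group S], Isp p S → Finite S ∧ NAS S ∧ 5 ≤ p ∧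
  2 * Nat.card S = p * (p * p - 1) ∧ Nat.card (MulAut S) ≤ p * (p * p - 1) ∧
  ∀ T : Subgroup S, T ≠ ⊤ → p ≤ T.index

/-- ONE: the conditions for simple chief factors -/
def T_ONE : Prop := ∀ e : ℝ, e0 ≤ e → ∀ (p : ℕ) (S : Type) [Group S], Isp p S → One e S

/-- EXI: invariant characters extend if the outer automorphism group has order at most two -/
def T_EXI : Prop := ∀ (S : Type) [Group S] [Finite S], NAS S → ∀ α0 : MulAut S,
  (∀ α : MulAut S, α ∈ (MulAut.conj : S →* MulAut S).range ∨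
    α * α0⁻¹ ∈ (MulAut.conj : S →* MulAut S).range) →
  ∀ ε ∈ Irr S, (∀ s, ε (α0 s) = ε s) → ε ∈ Ext S

/-- BPL: the permutation lemma of Brauer -/
def T_BPL : Prop := ∀ (G : Type) [Group G] [Finite G] (α : MulAut G),
  {χ : G → ℂ | χ ∈ Irr G ∧ (fun g => χ (α g)) = χ}.ncard =
    Nat.card {c : ConjClasses G // c.map (α : G →* G) = c}

/-- PAV: the outer automorphism -/
def T_PAV : Prop := ∀ q : ℕ, q.Prime → 7 ≤ q → ∃ (α0 : MulAut (PL q))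
  (g : Matrix.GeneralLinearGroup (Fin 2) (ZMod q)),
  (∀ A B : Matrix.SpecialLinearGroup (Fin 2) (ZMod q),
    Matrix.SpecialLinearGroup.toGL B = g * Matrix.SpecialLinearGroup.toGL A * g⁻¹ →
      α0 (QuotientGroup.mk A) = QuotientGroup.mk B) ∧
  ∀ α : MulAut (PL q), α ∈ (MulAut.conj : PL q →* MulAut (PL q)).range ∨
    α * α0⁻¹ ∈ (MulAut.conj : PL q →* MulAut (PL q)).range

/-- FXC: fixed conjugacy classes -/
def T_FXC : Prop := ∀ q : ℕ, q.Prime → 5 ≤ q → ∀ (α0 : MulAut (PL q))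
  (g : Matrix.GeneralLinearGroup (Fin 2) (ZMod q)),
  (∀ A B : Matrix.SpecialLinearGroup (Fin 2) (ZMod q),
    Matrix.SpecialLinearGroup.toGL B = g * Matrix.SpecialLinearGroup.toGL A * g⁻¹ →
      α0 (QuotientGroup.mk A) = QuotientGroup.mk B) →
  q + 1 ≤ 2 * Nat.card {c : ConjClasses (PL q) // c.map (α0 : PL q →* PL q) = c}

/-- EDG: degrees of the characters of the central extensions -/
def T_EDG : Prop := ∀ q : ℕ, q.Prime → 7 ≤ q → ∀ (M : Type) [Group M] [Finite M]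
  (π : M →* PL q), Function.Surjective π → π.ker ≤ Subgroup.center M → ∀ χ ∈ Irr M,
  χ 1 = 1 ∨ ((q : ℝ) - 1) / 2 ≤ (χ 1).re

/-- EDI: degrees of the invariant characters -/
def T_EDI : Prop := ∀ q : ℕ, q.Prime → 7 ≤ q → ∀ χ ∈ Irr (PL q),
  (∀ (α : MulAut (PL q)) (s : PL q), χ (α s) = χ s) →
  χ = (fun _ => 1) ∨ (q : ℝ) - 1 ≤ (χ 1).re

/-- SGP: the conditions for powers of `PSL(2, q)` -/
def T_SGP : Prop := ∀ (e : ℝ), 0 < e → ∀ q : ℕ, q.Prime → 7 ≤ q →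
  (24 : ℝ) ^ ((1 : ℝ) / 3) * (q * ((q : ℝ) ^ 2 - 1)) ≤ (((q : ℝ) - 1) / 2) ^ e →
  ∀ (S : Type) [Group S], Nonempty (S ≃* PL q) → SGood e S

/-- SG5: the conditions for powers of `A₅` -/
def T_SG5 : Prop := ∀ (e : ℝ), 0 < e → (24 : ℝ) ^ ((1 : ℝ) / 3) * 120 ≤ 2 ^ e →
  ∀ (S : Type) [Group S], Nonempty (S ≃* alternatingGroup (Fin 5)) → SGood e S

/-- N53: numerical -/
def T_N53 : Prop := ∀ p : ℕ, 53 ≤ p →
  (24 : ℝ) ^ ((1 : ℝ) / 3) * (p * ((p : ℝ) ^ 2 - 1)) ≤ (((p : ℝ) - 1) / 2) ^ (4 : ℝ)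

/-- N85: numerical -/
def T_N85 : Prop := ∀ p : ℕ, 5 ≤ p →
  (24 : ℝ) ^ ((1 : ℝ) / 3) * (p * ((p : ℝ) ^ 2 - 1)) ≤ (((p : ℝ) - 1) / 2) ^ ((17 : ℝ) / 2)

/-- KPS: the former class is contained in the new one -/
def T_KPS : Prop := ∀ (e : ℝ) (G : Type) [Group G] [Finite G], Kp G → Ser (PQ e) G

/-! ## The theorem -/

/-- MAI: the claim -/
def T_MAI : Prop := ∀ e : ℝ, 1 ≤ e → ∀ (Y : Type) [Group Y] [Finite Y], Ser (PP e) Y → CA e Y

/-- FIN: the theorem on the Fitting subgroup -/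
def T_FIN : Prop := ∀ (e : ℝ), 91 / 25 ≤ e → ∀ (G : Type) [Group G] [Finite G],
  CA e (G ⧸ sol G) → ∃ θ ∈ Irr (fit G), θ 1 = 1 ∧ ((fit G).index : ℝ) ≤ acd (fit G) θ ^ e

end FI
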